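import Pool.Agent.H10.EO.Defs

/-!
# Module Blw: blow-up

PROOF. `balanced`: enumerate `U` by `e : U ≃ Fin N` and put `π v = e⁻¹ (v mod N)`; the fibres have
between `n / N - 1` and `n / N + 1` elements (`Nat.count_modEq_card` or a direct count).
`blow`: `G` = comap of the relation `R` by `π` (`G.Adj u v ↔ R (π u) (π v)`), a simple graph because
`R` is symmetric and irreflexive. Triangle-free: a triangle of `G` is mapped to
`R a b, R b c, R a c`. With `w z = |W ∩ π⁻¹ z|`: `2 ins G W = B G 1_W 1_W` (`ncard_inside`)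
`= ∑_(u, v) [R (π u) (π v)] 1_W u 1_W v = ∑_(z, z') [R z z'] w z w z'` (sum over fibres)
`≥ D (∑ w)² - L ∑ w² ≥ D |W|² - L |W| (n / N + 1)`, since `∑ w = |W|` and
`w z ≤ n / N + 1`. For `W = univ`: `2 ins G univ = ∑ [R z z'] w z w z' ≤ (n / N + 1)² · #R`
`= D N² (n / N + 1)² = D (n + N)²`.
-/

set_option autoImplicit false

namespace Pool.Agent.H10.EO

open Finset Pool.Agent.H99.HalfDense

theorem balanced {U : Type} [Fintype U] [Nonempty U] [DecidableEq U] (n : ℕ) :
    ∃ π : Fin n → U, ∀ z : U,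
      ((Finset.univ.filter (fun v => π v = z)).card : ℝ) ≤ (n : ℝ) / (Fintype.card U : ℝ) + 1 := by
  classical
  set N := Fintype.card U with hN
  have hNpos : 0 < N := Fintype.card_pos
  let e : U ≃ Fin N := Fintype.equivFin U
  refine ⟨fun v => e.symm ⟨(v : ℕ) % N, Nat.mod_lt _ hNpos⟩, fun z => ?_⟩
  have h1 : (Finset.univ.filter (fun v : Fin n =>
      e.symm ⟨(v : ℕ) % N, Nat.mod_lt _ hNpos⟩ = z)).card ≤ n / N + 1 := by
    have h2 : (Finset.univ.filter (fun v : Fin n =>
        e.symm ⟨(v : ℕ) % N, Nat.mod_lt _ hNpos⟩ = z)).card ≤ (Finset.range (n / N + 1)).card := by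
      refine Finset.card_le_card_of_injOn (fun v : Fin n => (v : ℕ) / N) ?_ ?_
      · intro v _
        rw [Finset.mem_coe, Finset.mem_range]
        exact Nat.lt_succ_of_le (Nat.div_le_div_right v.2.le)
      · intro v hv v' hv' hvv
        rw [Finset.mem_coe, Finset.mem_filter] at hv hv'
        have h3 : (⟨(v : ℕ) % N, Nat.mod_lt _ hNpos⟩ : Fin N) =
            ⟨(v' : ℕ) % N, Nat.mod_lt _ hNpos⟩ := e.symm.injective (hv.2.trans hv'.2.symm)
        have h4 : (v : ℕ) % N = (v' : ℕ) % N := congrArg Fin.val h3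
        have h5 : (v : ℕ) / N = (v' : ℕ) / N := hvv
        refine Fin.ext ?_
        rw [← Nat.div_add_mod (v : ℕ) N, ← Nat.div_add_mod (v' : ℕ) N, h4, h5]
    rwa [Finset.card_range] at h2
  have h6 : ((n / N : ℕ) : ℝ) ≤ (n : ℝ) / (N : ℝ) := Nat.cast_div_le
  have h7 : ((Finset.univ.filter (fun v : Fin n =>
      e.symm ⟨(v : ℕ) % N, Nat.mod_lt _ hNpos⟩ = z)).card : ℝ) ≤ ((n / N + 1 : ℕ) : ℝ) := by
    exact_mod_cast h1
  rw [Nat.cast_add, Nat.cast_one] at h7
  linarith

/-- the weight of the fibre over `z` -/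
private noncomputable def Blw_w {U : Type} [DecidableEq U] {n : ℕ} (π : Fin n → U)
    (W : Finset (Fin n)) (z : U) : ℝ :=
  ∑ v, if π v = z then (if v ∈ W then (1 : ℝ) else 0) else 0

private theorem Blw_fib {U : Type} [Fintype U] [DecidableEq U] {n : ℕ} (π : Fin n → U)
    (W : Finset (Fin n)) (F : U → ℝ) :
    ∑ v, (if v ∈ W then (1 : ℝ) else 0) * F (π v) = ∑ z, Blw_w π W z * F z := by
  unfold Blw_w
  simp only [Finset.sum_mul]
  rw [Finset.sum_comm]
  refine Finset.sum_congr rfl fun v _ => ?_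
  rw [Finset.sum_eq_single (π v)]
  · rw [if_pos rfl]
  · intro z _ hz
    rw [if_neg (Ne.symm hz), zero_mul]
  · intro h
    exact absurd (Finset.mem_univ _) h

private theorem Blw_nonneg {U : Type} [DecidableEq U] {n : ℕ} (π : Fin n → U)
    (W : Finset (Fin n)) (z : U) : 0 ≤ Blw_w π W z := by
  refine Finset.sum_nonneg fun v _ => ?_
  split_ifs
  · exact zero_le_one
  · exact le_rfl
  · exact le_rfl

private theorem Blw_le {U : Type} [DecidableEq U] {n : ℕ} (π : Fin n → U)
    (W : Finset (Fin n)) (z : U) :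
    Blw_w π W z ≤ ((Finset.univ.filter (fun v => π v = z)).card : ℝ) := by
  rw [Finset.card_filter]
  push_cast
  refine Finset.sum_le_sum fun v _ => ?_
  split_ifs
  · exact le_rfl
  · exact zero_le_one
  · exact le_rfl

private theorem Blw_sum {U : Type} [Fintype U] [DecidableEq U] {n : ℕ} (π : Fin n → U)
    (W : Finset (Fin n)) : ∑ z, Blw_w π W z = (W.card : ℝ) := by
  have h := Blw_fib π W (fun _ => (1 : ℝ))
  simp only [mul_one] at h
  rw [← h, Finset.sum_ite_mem, Finset.univ_inter, Finset.sum_const, nsmul_eq_mul, mul_one]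

private theorem Blw_form {U : Type} [Fintype U] [DecidableEq U] (R : U → U → Prop)
    [DecidableRel R] {n : ℕ} (π : Fin n → U) (W : Finset (Fin n)) :
    ∑ u, ∑ v, (if R (π u) (π v) then (if u ∈ W then (1 : ℝ) else 0) *
      (if v ∈ W then (1 : ℝ) else 0) else 0) =
      ∑ z, ∑ z', (if R z z' then Blw_w π W z * Blw_w π W z' else 0) := by
  have h1 : ∀ u : Fin n, ∑ v, (if R (π u) (π v) then (if u ∈ W then (1 : ℝ) else 0) *
      (if v ∈ W then (1 : ℝ) else 0) else 0) =
      (if u ∈ W then (1 : ℝ) else 0) *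
        (fun z => ∑ z', Blw_w π W z' * (if R z z' then (1 : ℝ) else 0)) (π u) := by
    intro u
    have h2 := Blw_fib π W (fun z' => if R (π u) z' then (1 : ℝ) else 0)
    simp only
    rw [← h2, Finset.mul_sum]
    refine Finset.sum_congr rfl fun v _ => ?_
    by_cases h : R (π u) (π v)
    · rw [if_pos h, if_pos h, mul_one]
    · rw [if_neg h, if_neg h, mul_zero, mul_zero]
  rw [Finset.sum_congr rfl fun u _ => h1 u,
    Blw_fib π W (fun z => ∑ z', Blw_w π W z' * (if R z z' then (1 : ℝ) else 0))]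
  refine Finset.sum_congr rfl fun z _ => ?_
  rw [Finset.mul_sum]
  refine Finset.sum_congr rfl fun z' _ => ?_
  by_cases h : R z z'
  · rw [if_pos h, if_pos h, mul_one]
  · rw [if_neg h, if_neg h, mul_zero, mul_zero]

theorem blow {U : Type} [Fintype U] [Nonempty U] [DecidableEq U] (R : U → U → Prop)
    [DecidableRel R] (hsymm : ∀ x y, R x y → R y x) (hirr : ∀ x, ¬ R x x)
    (hfree : ∀ x y z, R x y → R y z → ¬ R x z) {D L : ℝ} (hD : 0 ≤ D) (hL : 0 ≤ L)
    (hform : ∀ w : U → ℝ, D * (∑ z, w z) ^ 2 - L * ∑ z, w z ^ 2 ≤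
      ∑ z, ∑ z', (if R z z' then w z * w z' else 0))
    (hcard : ((Finset.univ.filter (fun z : U × U => R z.1 z.2)).card : ℝ) =
      D * (Fintype.card U : ℝ) ^ 2) (n : ℕ) :
    ∃ G : SimpleGraph (Fin n), G.CliqueFree 3 ∧
      (∀ W : Finset (Fin n), D * (W.card : ℝ) ^ 2 -
        L * (W.card : ℝ) * ((n : ℝ) / (Fintype.card U : ℝ) + 1) ≤ 2 * ins G W) ∧
      2 * ins G Finset.univ ≤ D * ((n : ℝ) + (Fintype.card U : ℝ)) ^ 2 := by
  classical
  obtain ⟨π, hπ⟩ := balanced (U := U) n
  let G : SimpleGraph (Fin n) :=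
    { Adj := fun u v => R (π u) (π v)
      symm := ⟨fun u v h => hsymm _ _ h⟩
      loopless := ⟨fun u h => hirr _ h⟩ }
  have hdec : DecidableRel G.Adj := fun u v => inferInstanceAs (Decidable (R (π u) (π v)))
  have hNpos : (0 : ℝ) < Fintype.card U := by
    exact_mod_cast Fintype.card_pos
  set c : ℝ := (n : ℝ) / (Fintype.card U : ℝ) + 1 with hc
  have hc0 : 0 ≤ c := by positivity
  have key : ∀ W : Finset (Fin n), 2 * ins G W =
      ∑ z, ∑ z', (if R z z' then Blw_w π W z * Blw_w π W z' else 0) := by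
    intro W
    unfold ins
    rw [← ncard_inside G W, ← Blw_form R π W]
    unfold B
    refine Finset.sum_congr rfl fun u _ => Finset.sum_congr rfl fun v _ => ?_
    by_cases h : R (π u) (π v)
    · exact (if_pos h).trans (if_pos h).symm
    · exact (if_neg h).trans (if_neg h).symm
  have hwle : ∀ (W : Finset (Fin n)) (z : U), Blw_w π W z ≤ c := fun W z =>
    (Blw_le π W z).trans (hπ z)
  refine ⟨G, ?_, ?_, ?_⟩
  · intro t ht
    obtain ⟨a, b, d, h1, h2, h3, -⟩ := SimpleGraph.is3Clique_iff.1 ht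
    exact hfree (π a) (π b) (π d) h1 h3 h2
  · intro W
    rw [key W]
    refine le_trans ?_ (hform (Blw_w π W))
    rw [Blw_sum]
    have h2 : ∑ z, Blw_w π W z ^ 2 ≤ c * (W.card : ℝ) := by
      rw [← Blw_sum π W, Finset.mul_sum]
      refine Finset.sum_le_sum fun z _ => ?_
      rw [sq]
      exact mul_le_mul_of_nonneg_right (hwle W z) (Blw_nonneg π W z)
    have h3 := mul_le_mul_of_nonneg_left h2 hL
    have h4 : L * (W.card : ℝ) * c = L * (c * (W.card : ℝ)) := by ring
    rw [h4]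
    linarith
  · rw [key Finset.univ]
    have h1 : ∑ z, ∑ z', (if R z z' then Blw_w π Finset.univ z * Blw_w π Finset.univ z' else 0) ≤
        ∑ z, ∑ z', (if R z z' then c ^ 2 else 0) := by
      refine Finset.sum_le_sum fun z _ => Finset.sum_le_sum fun z' _ => ?_
      split_ifs
      · rw [sq]
        exact mul_le_mul (hwle _ z) (hwle _ z') (Blw_nonneg π _ z') hc0
      · exact le_rfl
    refine h1.trans (le_of_eq ?_)
    have h2 : ∑ z, ∑ z', (if R z z' then c ^ 2 else 0) =
        c ^ 2 * ((Finset.univ.filter (fun z : U × U => R z.1 z.2)).card : ℝ) := by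
      rw [Finset.card_filter]
      push_cast
      rw [Finset.mul_sum, ← Finset.univ_product_univ, Finset.sum_product]
      refine Finset.sum_congr rfl fun z _ => Finset.sum_congr rfl fun z' _ => ?_
      by_cases h : R z z'
      · rw [if_pos h, if_pos h, mul_one]
      · rw [if_neg h, if_neg h, mul_zero]
    rw [h2, hcard, hc]
    have h3 : ((n : ℝ) / (Fintype.card U : ℝ) + 1) * (Fintype.card U : ℝ) =
        (n : ℝ) + (Fintype.card U : ℝ) := by
      rw [add_mul, div_mul_cancel₀ _ hNpos.ne', one_mul]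
    calc ((n : ℝ) / (Fintype.card U : ℝ) + 1) ^ 2 * (D * (Fintype.card U : ℝ) ^ 2) =
        D * (((n : ℝ) / (Fintype.card U : ℝ) + 1) * (Fintype.card U : ℝ)) ^ 2 := by ring
      _ = D * ((n : ℝ) + (Fintype.card U : ℝ)) ^ 2 := by rw [h3]

end Pool.Agent.H10.EO
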