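import Mathlib

/-!
# Module Chr: a real additive character of the field with `2^h` elements

`Chi χ`: `χ : F → ℝ` is additive-to-multiplicative with values `1`, `-1` and takes the value `-1`.

PROOF. `exists_chi`: `F = GaloisField 2 h`, `h ≠ 0`, is a nontrivial vector space over `ZMod 2`, so
there is a linear functional `ℓ : F → ZMod 2` with `ℓ x ≠ 0` for some `x`
(for instance `Module.exists_dual_forall_apply_ne_zero..` / `exists_dual_ne_zero`, or
`Algebra.trace_ne_zero`, or a basis coordinate); `χ x = if ℓ x = 0 then 1 else -1`; check the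
multiplicativity on the four cases (`ZMod 2`, `decide`).
`sum_chi`: `S = ∑ x, χ (u x)`, `u ≠ 0`, `χ x₀ = -1`; the shift `x ↦ x + u⁻¹ x₀` gives `S = - S`.
`card_neg`: `∑ x, χ x = 0` (`u = 1`), so `#{χ = 1} = #{χ = -1} = q / 2`.
`sum_neg`: `1_{χ x = -1} = (1 - χ x) / 2`, so
`∑_{χ x = -1} χ (x s) = (∑ χ (x s) - ∑ χ (x (s + 1))) / 2` (`χ x χ (x s) = χ (x (1 + s))`); the
sums are `q` if `s = 0`, resp. `s + 1 = 0`, and `0` otherwise; `s + 1 = 0` iff `s = 1`
(characteristic two).
-/

set_option autoImplicit false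

namespace Pool.Agent.H10.EO

open Finset

/-- nontrivial real additive characters of exponent two -/
structure Chi {F : Type} [Field F] (χ : F → ℝ) : Prop where
  add : ∀ x y, χ (x + y) = χ x * χ y
  val : ∀ x, χ x = 1 ∨ χ x = -1
  neg : ∃ x, χ x = -1

theorem exists_chi (h : ℕ) (hh : h ≠ 0) : ∃ χ : GaloisField 2 h → ℝ, Chi χ := by
  classical
  have hne : (1 : GaloisField 2 h) ≠ 0 := one_ne_zero
  obtain ⟨φ, hφ⟩ : ∃ φ : Module.Dual (ZMod 2) (GaloisField 2 h), φ 1 ≠ 0 := by
    by_contra hcon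
    push Not at hcon
    exact hne ((Module.forall_dual_apply_eq_zero_iff (ZMod 2) (1 : GaloisField 2 h)).1 hcon)
  refine ⟨fun x => if φ x = 0 then 1 else -1, ?_, ?_, ?_⟩
  · intro x y
    have key : ∀ a b : ZMod 2, a ≠ 0 → b ≠ 0 → a + b = 0 := by decide
    show (if φ (x + y) = 0 then (1 : ℝ) else -1) =
      (if φ x = 0 then 1 else -1) * (if φ y = 0 then 1 else -1)
    rw [map_add]
    by_cases h1 : φ x = 0
    · rw [h1, zero_add, if_pos rfl, one_mul]
    · by_cases h2 : φ y = 0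
      · rw [h2, add_zero, if_pos rfl, mul_one]
      · rw [if_pos (key _ _ h1 h2), if_neg h1, if_neg h2]
        norm_num
  · intro x
    by_cases h1 : φ x = 0
    · left
      exact if_pos h1
    · right
      exact if_neg h1
  · exact ⟨1, if_neg hφ⟩

variable {F : Type} [Field F] [Fintype F] [DecidableEq F] {χ : F → ℝ}

theorem sum_chi (hχ : Chi χ) {u : F} (hu : u ≠ 0) : ∑ x : F, χ (u * x) = 0 := by
  obtain ⟨x₀, hx₀⟩ := hχ.neg
  have h1 : ∑ x : F, χ (u * (x + u⁻¹ * x₀)) = ∑ x : F, χ (u * x) :=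
    Equiv.sum_comp (Equiv.addRight (u⁻¹ * x₀)) fun x => χ (u * x)
  have h2 : ∀ x : F, χ (u * (x + u⁻¹ * x₀)) = - χ (u * x) := by
    intro x
    rw [mul_add, mul_inv_cancel_left₀ hu, hχ.add, hx₀, mul_neg, mul_one]
  simp only [h2, Finset.sum_neg_distrib] at h1
  linarith

theorem chi_zero (hχ : Chi χ) : χ 0 = 1 := by
  have h1 : χ 0 = χ 0 * χ 0 := by
    have h := hχ.add 0 0
    rwa [add_zero] at h
  rcases hχ.val 0 with h | h
  · exact h
  · rw [h] at h1
    norm_num at h1

/-- the elements with character value `-1` -/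
noncomputable def neg1 (χ : F → ℝ) : Finset F := by
  classical exact Finset.univ.filter (fun x => χ x = -1)

private theorem chr_sum (hχ : Chi χ) (f : F → ℝ) :
    ∑ x ∈ neg1 χ, f x = ∑ x : F, (f x - χ x * f x) / 2 := by
  classical
  unfold neg1
  rw [Finset.sum_filter]
  refine Finset.sum_congr rfl ?_
  intro x _
  rcases hχ.val x with h | h
  · rw [h, if_neg (by norm_num)]
    ring
  · rw [h, if_pos rfl]
    ring

private theorem chr_A (hχ : Chi χ) (u : F) :
    ∑ x : F, χ (u * x) = if u = 0 then (Fintype.card F : ℝ) else 0 := by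
  by_cases hu : u = 0
  · rw [if_pos hu]
    subst hu
    simp only [zero_mul, chi_zero hχ, Finset.sum_const, Finset.card_univ, nsmul_eq_mul, mul_one]
  · rw [if_neg hu]
    exact sum_chi hχ hu

theorem card_neg (hχ : Chi χ) : ((neg1 χ).card : ℝ) = (Fintype.card F : ℝ) / 2 := by
  have h1 := chr_sum hχ (fun _ => (1 : ℝ))
  have h2 : ∑ x : F, χ x = 0 := by
    have h := sum_chi hχ (one_ne_zero : (1 : F) ≠ 0)
    simpa using h
  have h3 : ∑ x : F, (1 - χ x * 1) / 2 = (Fintype.card F : ℝ) / 2 := by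
    rw [← Finset.sum_div, Finset.sum_sub_distrib]
    simp only [mul_one, h2, Finset.sum_const, Finset.card_univ, nsmul_eq_mul, sub_zero]
  rw [h3] at h1
  rw [← h1]
  simp

theorem sum_neg (hχ : Chi χ) [CharP F 2] (s : F) :
    ∑ x ∈ neg1 χ, χ (x * s) =
      (Fintype.card F : ℝ) / 2 * ((if s = 0 then 1 else 0) - (if s = 1 then 1 else 0)) := by
  have h1 := chr_sum hχ (fun x => χ (x * s))
  have h2 : ∀ x : F, (χ (x * s) - χ x * χ (x * s)) / 2 =
      (χ (s * x) - χ ((1 + s) * x)) / 2 := by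
    intro x
    have e1 : (1 + s) * x = x + x * s := by ring
    rw [e1, hχ.add, mul_comm s x]
  simp only [h2] at h1
  rw [h1, ← Finset.sum_div, Finset.sum_sub_distrib, chr_A hχ, chr_A hχ]
  have h3 : (1 + s = 0) ↔ s = 1 := by
    rw [CharTwo.add_eq_zero]
    exact eq_comm
  simp only [h3]
  split_ifs <;> ring

end Pool.Agent.H10.EO
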