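import Pool.Agent.H10.EO.Defs

/-!
# Module Stp: one step, `j`-cliques to `(j+1)`-cliques

PROOF of `ext_step`. Let `Y` with `(δ + γ) n ≤ |Y|` and `F'` with
`|F'| ≤ (b μ / (2 (j+1))) n^(j+1)`. For a set `X` put `Z X = {z | z ∉ X ∧ insert z X ∈ F'}`, and let
`F` be the set of all `X` of cardinality `j` with `μ n / 2 ≤ |Z X|`. Double counting of the pairs
`(X, z)` with `|X| = j`, `z ∈ Z X` (for each `S ∈ F'` there are at most `j + 1` pairs
`(S.erase z, z)`; only `S` with `|S| = j + 1` matter) gives `|F| (μ n / 2) ≤ (j+1) |F'|`, so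
`|F| ≤ b n^j`. Let `m = ⌈μ n⌉₊ ≥ 1`.
Suppose the conclusion fails for `Y`, `F'`: (H) for every `(j+1)`-clique `X' ∉ F'`,
`|nb G X' Y| < (p μ / 4) n`.
CLAIM (induction on `i`): if `(i - 1) m ≤ γ n`, that is `i * m ≤ γ n + m`, there are `S ⊆ Y` with
`|S| ≤ i m` and `f` with `|f v| ≤ 1`, `f v = 0` for `v ∉ S` and
`B G f f - p (∑ f)² ≤ - i p m² / 8`. For `i = 0` take `f = 0`. Step `i → i + 1`: `i m ≤ γ n`, so
`Y \ S` has at least `δ n` elements; `Ext` gives a `j`-clique `X ∉ F` with `μ n ≤ |nb G X (Y \ S)|`,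
so there is `M ⊆ nb G X (Y \ S)` with `|M| = m`. Put `M' = M \ Z X`; since `X ∉ F`,
`|Z X| < μ n / 2 ≤ m / 2`, so `|M'| ≥ m / 2`. For `z ∈ M'` the set `insert z X` is a `(j+1)`-clique
(`z ∉ X` because `z` is adjacent to the elements of `X`) outside `F'` (as `z ∉ Z X`), and
`M'.filter (G.Adj z) ⊆ nb G (insert z X) Y`, so by (H) it has fewer than `(p μ / 4) n ≤ p m / 4`
elements. Hence with `g = 1_{M'}` (`B_ind`): `B G g g - p (∑ g)² ≤ |M'| (p m / 4) - p |M'|²`
`≤ - |M'| p m / 4 ≤ - p m² / 8`. The polarised form `C = B G f g - p (∑ f)(∑ g)` may have any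
sign; choose `s ∈ {1, -1}` with `s C ≤ 0` and `f' = f + s g`, `S' = S ∪ M'` (disjoint supports, so
`|f'| ≤ 1`); the form of `f'` is the form of `f` plus the form of `g` plus `2 s C`.
Take `i = ⌊γ n / m⌋₊ + 1`: then `γ n < i m ≤ γ n + m`, the form of `f` is
`≤ - i p m² / 8 < - γ n p m / 8 ≤ - γ p μ n² / 8 ≤ - κ n²`, against `Low`.
-/

set_option autoImplicit false

namespace Pool.Agent.H10.EO

open Finset Pool.Agent.H99.HalfDense

variable {n : ℕ}

private theorem Stp_key (F' : Finset (Finset (Fin n))) (j : ℕ) {t : ℝ}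
    (XX : Finset (Finset (Fin n)))
    (h : ∀ X ∈ XX, X.card = j ∧
      t ≤ ((Finset.univ.filter (fun z => z ∉ X ∧ insert z X ∈ F')).card : ℝ)) :
    ((XX.card : ℕ) : ℝ) * t ≤ ((j : ℝ) + 1) * (F'.card : ℝ) := by
  set Z : Finset (Fin n) → Finset (Fin n) :=
    fun X => Finset.univ.filter (fun z => z ∉ X ∧ insert z X ∈ F') with hZ
  have h1 : (XX.card : ℝ) * t ≤ ((XX.sigma Z).card : ℝ) := by
    rw [Finset.card_sigma]
    push_cast
    calc (XX.card : ℝ) * t = ∑ X ∈ XX, t := by rw [Finset.sum_const, nsmul_eq_mul]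
      _ ≤ ∑ X ∈ XX, ((Z X).card : ℝ) := Finset.sum_le_sum fun X hX => (h X hX).2
  have h2 : (XX.sigma Z).card ≤
      ((F'.filter (fun S => S.card = j + 1)).sigma (fun S => S)).card := by
    refine Finset.card_le_card_of_injOn
      (fun x => (⟨insert x.2 x.1, x.2⟩ : Σ _ : Finset (Fin n), Fin n)) ?_ ?_
    · rintro ⟨X, z⟩ hx
      have hx' := Finset.mem_sigma.1 (Finset.mem_coe.1 hx)
      have hX := h X hx'.1
      have hz := (Finset.mem_filter.1 hx'.2).2
      refine Finset.mem_coe.2 (Finset.mem_sigma.2 ⟨Finset.mem_filter.2 ⟨hz.2, ?_⟩, ?_⟩)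
      · show (insert z X).card = j + 1
        rw [Finset.card_insert_of_notMem hz.1, hX.1]
      · show z ∈ insert z X
        exact Finset.mem_insert_self z X
    · rintro ⟨X, z⟩ hx ⟨X', z'⟩ hx' heq
      have h3 : z ∉ X := (Finset.mem_filter.1 (Finset.mem_sigma.1 (Finset.mem_coe.1 hx)).2).2.1
      have h4 : z' ∉ X' :=
        (Finset.mem_filter.1 (Finset.mem_sigma.1 (Finset.mem_coe.1 hx')).2).2.1
      have h5 : insert z X = insert z' X' := congrArg Sigma.fst heq
      have h6 : z = z' := eq_of_heq (Sigma.mk.inj heq).2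
      subst h6
      have h7 : X = X' := by
        have h8 : (insert z X).erase z = (insert z X').erase z := by rw [h5]
        rwa [Finset.erase_insert h3, Finset.erase_insert h4] at h8
      rw [h7]
  have h3 : ((F'.filter (fun S => S.card = j + 1)).sigma (fun S => S)).card =
      (F'.filter (fun S => S.card = j + 1)).card * (j + 1) := by
    rw [Finset.card_sigma, Finset.sum_congr rfl (fun S hS => (Finset.mem_filter.1 hS).2),
      Finset.sum_const, smul_eq_mul]
  have h4 : ((XX.sigma Z).card : ℝ) ≤ ((F'.card * (j + 1) : ℕ) : ℝ) := by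
    have : (XX.sigma Z).card ≤ F'.card * (j + 1) :=
      h2.trans (h3.le.trans (Nat.mul_le_mul_right _ (Finset.card_filter_le _ _)))
    exact_mod_cast this
  push_cast at h4
  linarith

/-- double counting for forbidden families -/
theorem bad_card (F' : Finset (Finset (Fin n))) (j : ℕ) {t : ℝ} (ht : 0 < t) :
    ((((Finset.univ : Finset (Finset (Fin n))).filter (fun X => X.card = j ∧
      t ≤ ((Finset.univ.filter (fun z => z ∉ X ∧ insert z X ∈ F')).card : ℝ))).card : ℕ) : ℝ) * t ≤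
      ((j : ℝ) + 1) * (F'.card : ℝ) :=
  have _ := ht
  Stp_key F' j _ fun _ hX => (Finset.mem_filter.1 hX).2

private theorem Stp_iter (G : SimpleGraph (Fin n)) [DecidableRel G.Adj] {p c : ℝ} {m : ℕ}
    (Y : Finset (Fin n)) (hp : 0 < p) (hm : 0 < (m : ℝ))
    (hstep : ∀ S : Finset (Fin n), S ⊆ Y → (S.card : ℝ) ≤ c → ∃ M : Finset (Fin n), M ⊆ Y \ S ∧
      (m : ℝ) / 2 ≤ (M.card : ℝ) ∧ M.card ≤ m ∧
      ∀ z ∈ M, ((M.filter (fun w => G.Adj z w)).card : ℝ) ≤ p * m / 4) (i : ℕ) :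
    (i : ℝ) * m ≤ c + m → ∃ S : Finset (Fin n), S ⊆ Y ∧ (S.card : ℝ) ≤ i * m ∧
      ∃ f : Fin n → ℝ, (∀ v, |f v| ≤ 1) ∧ (∀ v, v ∉ S → f v = 0) ∧
        B G f f - p * (∑ v, f v) ^ 2 ≤ -((i : ℝ) * p * (m : ℝ) ^ 2 / 8) := by
  induction i with
  | zero =>
    intro _
    refine ⟨∅, Finset.empty_subset _, by simp, fun _ => 0, fun v => by simp, fun v _ => rfl, ?_⟩
    simp [B]
  | succ i ih =>
    intro hi
    push_cast at hi
    obtain ⟨S, hSY, hSc, f, hf1, hf0, hff⟩ := ih (by nlinarith)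
    obtain ⟨M, hMY, hM1, hM2, hM3⟩ := hstep S hSY (by linarith)
    set g : Fin n → ℝ := fun v => if v ∈ M then (1 : ℝ) else 0 with hg
    have hgs : ∑ v, g v = (M.card : ℝ) := by simp [hg]
    have hgg : B G g g - p * (∑ v, g v) ^ 2 ≤ -(p * (m : ℝ) ^ 2 / 8) := by
      have h1 : B G g g ≤ (M.card : ℝ) * (p * m / 4) := by
        rw [hg, B_ind]
        calc ∑ v ∈ M, ((M.filter (fun w => G.Adj v w)).card : ℝ) ≤ ∑ v ∈ M, (p * m / 4) :=
              Finset.sum_le_sum hM3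
          _ = (M.card : ℝ) * (p * m / 4) := by rw [Finset.sum_const, nsmul_eq_mul]
      rw [hgs]
      have h2 : (M.card : ℝ) * ((M.card : ℝ) - m / 4) ≥ (m : ℝ) / 2 * (m / 4) := by
        apply mul_le_mul hM1 (by linarith) (by positivity) (by positivity)
      have h3 : p * ((M.card : ℝ) * ((M.card : ℝ) - m / 4)) ≥ p * ((m : ℝ) / 2 * (m / 4)) :=
        mul_le_mul_of_nonneg_left h2 hp.le
      nlinarith
    obtain ⟨s, hs, hsC⟩ : ∃ s : ℝ, (s = 1 ∨ s = -1) ∧
        s * (B G f g - p * ((∑ v, f v) * ∑ v, g v)) ≤ 0 := by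
      rcases le_total (B G f g - p * ((∑ v, f v) * ∑ v, g v)) 0 with h | h
      · exact ⟨1, Or.inl rfl, by linarith⟩
      · exact ⟨-1, Or.inr rfl, by linarith⟩
    have hs2 : s ^ 2 = 1 := by rcases hs with rfl | rfl <;> norm_num
    refine ⟨S ∪ M, Finset.union_subset hSY (hMY.trans Finset.sdiff_subset), ?_,
      fun v => 1 * f v + s * g v, ?_, ?_, ?_⟩
    · have h1 : ((S ∪ M).card : ℝ) ≤ (S.card : ℝ) + (M.card : ℝ) := by
        exact_mod_cast Finset.card_union_le S M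
      have h2 : (M.card : ℝ) ≤ m := by exact_mod_cast hM2
      push_cast
      linarith
    · intro v
      by_cases hv : v ∈ M
      · have hvS : v ∉ S := (Finset.mem_sdiff.1 (hMY hv)).2
        have hgv : g v = 1 := by simp [hg, hv]
        show |1 * f v + s * g v| ≤ 1
        rw [hf0 v hvS, hgv]
        rcases hs with rfl | rfl <;> norm_num
      · have hgv : g v = 0 := by simp [hg, hv]
        show |1 * f v + s * g v| ≤ 1
        rw [hgv]
        have := hf1 v
        simpa using this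
    · intro v hv
      rw [Finset.mem_union, not_or] at hv
      have hgv : g v = 0 := by simp [hg, hv.2]
      show 1 * f v + s * g v = 0
      rw [hf0 v hv.1, hgv]
      ring
    · have h1 : ∑ v, (1 * f v + s * g v) = ∑ v, f v + s * ∑ v, g v := by
        rw [Finset.sum_add_distrib, ← Finset.mul_sum, ← Finset.mul_sum, one_mul]
      rw [Q_lin, h1]
      have h2 : 1 ^ 2 * B G f f + 2 * 1 * s * B G f g + s ^ 2 * B G g g -
          p * (∑ v, f v + s * ∑ v, g v) ^ 2 = (B G f f - p * (∑ v, f v) ^ 2) +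
          (s ^ 2 * B G g g - p * (s ^ 2 * (∑ v, g v) ^ 2)) +
          2 * (s * (B G f g - p * ((∑ v, f v) * ∑ v, g v))) := by ring
      rw [h2, hs2]
      push_cast
      nlinarith

theorem ext_step (G : SimpleGraph (Fin n)) [DecidableRel G.Adj] {p κ δ b μ γ : ℝ} {j : ℕ}
    (hn : 0 < n) (hp0 : 0 < p) (hp1 : p ≤ 1) (hμ : 0 < μ) (hb : 0 ≤ b) (hγ : 0 < γ)
    (hlow : Low G p κ) (hext : Ext G δ b μ j) (hκ : 8 * κ ≤ γ * p * μ) :
    Ext G (δ + γ) (b * μ / (2 * ((j : ℝ) + 1))) (p * μ / 4) (j + 1) := by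
  classical
  have _ := hp1
  have _ := hb
  intro Y hY F' hF'
  by_contra hcon
  push Not at hcon
  have hN : (0 : ℝ) < n := by exact_mod_cast hn
  have hμn : 0 < μ * n := mul_pos hμ hN
  set m : ℕ := ⌈μ * (n : ℝ)⌉₊ with hm
  have hm1 : μ * n ≤ (m : ℝ) := Nat.le_ceil _
  have hm0 : (0 : ℝ) < m := lt_of_lt_of_le hμn hm1
  set Z : Finset (Fin n) → Finset (Fin n) :=
    fun X => Finset.univ.filter (fun z => z ∉ X ∧ insert z X ∈ F') with hZ
  set F : Finset (Finset (Fin n)) := (Finset.univ : Finset (Finset (Fin n))).filter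
    (fun X => X.card = j ∧ μ * n / 2 ≤ ((Z X).card : ℝ)) with hF
  have hFc : (F.card : ℝ) ≤ b * (n : ℝ) ^ j := by
    have h1 : (F.card : ℝ) * (μ * n / 2) ≤ ((j : ℝ) + 1) * (F'.card : ℝ) :=
      Stp_key F' j F fun X hX => (Finset.mem_filter.1 hX).2
    have hj : (0 : ℝ) < (j : ℝ) + 1 := by positivity
    have h2 : ((j : ℝ) + 1) * (F'.card : ℝ) ≤
        ((j : ℝ) + 1) * (b * μ / (2 * ((j : ℝ) + 1)) * (n : ℝ) ^ (j + 1)) :=
      mul_le_mul_of_nonneg_left hF' hj.le
    have h3 : ((j : ℝ) + 1) * (b * μ / (2 * ((j : ℝ) + 1)) * (n : ℝ) ^ (j + 1)) =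
        (b * (n : ℝ) ^ j) * (μ * n / 2) := by
      field_simp
      ring
    rw [h3] at h2
    exact le_of_mul_le_mul_right (h1.trans h2) (by positivity)
  have hstep : ∀ S : Finset (Fin n), S ⊆ Y → (S.card : ℝ) ≤ γ * n →
      ∃ M : Finset (Fin n), M ⊆ Y \ S ∧ (m : ℝ) / 2 ≤ (M.card : ℝ) ∧ M.card ≤ m ∧
      ∀ z ∈ M, ((M.filter (fun w => G.Adj z w)).card : ℝ) ≤ p * m / 4 := by
    intro S hSY hS
    have h1 : δ * n ≤ ((Y \ S).card : ℝ) := by
      rw [Finset.card_sdiff_of_subset hSY, Nat.cast_sub (Finset.card_le_card hSY)]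
      nlinarith
    obtain ⟨X, hX, hXF, hXn⟩ := hext (Y \ S) h1 F hFc
    have hmn : m ≤ (nb G X (Y \ S)).card := Nat.ceil_le.2 hXn
    obtain ⟨M, hM, hMc⟩ := Finset.exists_subset_card_eq hmn
    have hZX : ((Z X).card : ℝ) < μ * n / 2 := by
      by_contra hc
      exact hXF (Finset.mem_filter.2 ⟨Finset.mem_univ _, hX.card_eq, not_lt.1 hc⟩)
    refine ⟨M \ Z X, ?_, ?_, ?_, ?_⟩
    · exact Finset.sdiff_subset.trans (hM.trans (Finset.filter_subset _ _))
    · have h2 : M.card ≤ (M \ Z X).card + (Z X).card := by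
        have := Finset.card_le_card_sdiff_add_card (s := M) (t := Z X)
        omega
      have h3 : (m : ℝ) ≤ ((M \ Z X).card : ℝ) + ((Z X).card : ℝ) := by
        rw [← hMc]
        exact_mod_cast h2
      linarith
    · rw [← hMc]
      exact Finset.card_le_card Finset.sdiff_subset
    · intro z hz
      have hz1 := Finset.mem_sdiff.1 hz
      have hz2 := Finset.mem_filter.1 (hM hz1.1)
      have hzX : z ∉ X := fun hc => (G.loopless.irrefl z) (hz2.2 z hc)
      have hcl : G.IsNClique (j + 1) (insert z X) :=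
        hX.insert fun x hx => (hz2.2 x hx).symm
      have hnF : insert z X ∉ F' := fun hc =>
        hz1.2 (Finset.mem_filter.2 ⟨Finset.mem_univ _, hzX, hc⟩)
      have h2 := hcon (insert z X) hcl hnF
      have h3 : (M \ Z X).filter (fun w => G.Adj z w) ⊆ nb G (insert z X) Y := by
        intro w hw
        have hw1 := Finset.mem_filter.1 hw
        have hw2 := Finset.mem_filter.1 (hM (Finset.mem_sdiff.1 hw1.1).1)
        refine Finset.mem_filter.2 ⟨(Finset.mem_sdiff.1 hw2.1).1, fun x hx => ?_⟩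
        rcases Finset.mem_insert.1 hx with rfl | hx
        · exact hw1.2
        · exact hw2.2 x hx
      have h4 : (((M \ Z X).filter (fun w => G.Adj z w)).card : ℝ) ≤
          ((nb G (insert z X) Y).card : ℝ) := by
        exact_mod_cast Finset.card_le_card h3
      have h5 : p * (μ * n) ≤ p * m := mul_le_mul_of_nonneg_left hm1 hp0.le
      linarith
  obtain ⟨S, hSY, -, f, hf1, -, hff⟩ := Stp_iter G Y hp0 hm0 hstep (⌊γ * n / m⌋₊ + 1) (by
    have h1 : (⌊γ * (n : ℝ) / m⌋₊ : ℝ) ≤ γ * n / m := Nat.floor_le (by positivity)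
    have h2 := mul_le_mul_of_nonneg_right h1 hm0.le
    rw [div_mul_cancel₀ _ hm0.ne'] at h2
    push_cast
    linarith)
  have hl := hlow f hf1
  have h1 : γ * (n : ℝ) / m < (⌊γ * (n : ℝ) / m⌋₊ : ℝ) + 1 := Nat.lt_floor_add_one _
  have h2 := mul_lt_mul_of_pos_right h1 hm0
  rw [div_mul_cancel₀ _ hm0.ne'] at h2
  push_cast at hff
  set I : ℝ := (⌊γ * (n : ℝ) / m⌋₊ : ℝ) + 1 with hI
  have h3 : γ * n * (p * m) < I * m * (p * m) := mul_lt_mul_of_pos_right h2 (by positivity)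
  have h4 : γ * n * (p * (μ * n)) ≤ γ * n * (p * m) :=
    mul_le_mul_of_nonneg_left (mul_le_mul_of_nonneg_left hm1 hp0.le) (by positivity)
  have h5 : 8 * κ * (n : ℝ) ^ 2 ≤ γ * p * μ * (n : ℝ) ^ 2 :=
    mul_le_mul_of_nonneg_right hκ (by positivity)
  have h6 : I * p * (m : ℝ) ^ 2 / 8 = I * m * (p * m) / 8 := by ring
  rw [h6] at hff
  nlinarith

end Pool.Agent.H10.EO
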