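import Pool.Agent.H10.EO.Defs
import Pool.Agent.H10.EO.Stp

/-!
# Module Cnt: iteration and counting

PROOF. `ext_all`: induction on `j`. `j = 0`: `|F| ≤ 1/2` gives `F = ∅`, `X = ∅`, `nb G ∅ Y = Y`,
`del 0 = 1/2 = mu p 0`. Step: `ext_step` with `γ = (1/2)^(j+2)`, `del (j+1) = del j + γ`,
`mu p (j+1) = p * mu p j / 4`; the condition `8 κ ≤ γ p μ_j = 2^(-(j+2)) p (1/2) (p/4)^j`
`= 2^(-(3j+3)) p^(j+1)` follows from `κ ≤ 2^(-3k) p^(k-1)`, `j + 1 ≤ k - 1`, `p ≤ 1`
(`8 · 2^(-3k) = 2^(-(3k-3)) ≤ 2^(-(3j+3))` as `j + 2 ≤ k`).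
`cliques_ge`: put `F` = all `(k-1)`-cliques `X` with `mu p (k-1) * n ≤ |nb G X univ|`. If
`|F| ≤ bb p (k-1) n^(k-1)`, then `Ext` with `Y = univ` (`del (k-1) ≤ 1`) gives a member of `F`
outside `F`. So `|F| > bb p (k-1) n^(k-1)`. Each `X ∈ F` and `v ∈ nb G X univ` give the `k`-clique
`insert v X` (`v ∉ X`); each `k`-clique arises from at most `k` pairs `(X, v)` (`v` determines `X`).
Hence `k · #(k-cliques) ≥ |F| μ_(k-1) n`.
`bb_ge`: `bb` and `mu` are monotone in `p ≥ 0` and `bb p j = bb 1 j * p ^ (j.choose 2)`,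
`mu p j = mu 1 j * p ^ j`, `(k-1).choose 2 + (k - 1) = k.choose 2`.
-/

set_option autoImplicit false

namespace Pool.Agent.H10.EO

open Finset Pool.Agent.H99.HalfDense

variable {n : ℕ}

theorem ext_all (G : SimpleGraph (Fin n)) [DecidableRel G.Adj] {p κ : ℝ} {k : ℕ} (hk : 2 ≤ k)
    (hn : 0 < n) (hp0 : 0 < p) (hp1 : p ≤ 1) (hlow : Low G p κ)
    (hκ : κ ≤ (1 / 2) ^ (3 * k) * p ^ (k - 1)) (j : ℕ) (hj : j + 1 ≤ k) :
    Ext G (del j) (bb p j) (mu p j) j := by
  induction j with
  | zero =>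
    intro Y hY F hF
    have h0 : F = ∅ := by
      rw [← Finset.card_eq_zero]
      by_contra hne
      have h1 : (1 : ℝ) ≤ (F.card : ℝ) := by
        exact_mod_cast Nat.one_le_iff_ne_zero.mpr hne
      have h2 : (F.card : ℝ) ≤ 1 / 2 := by
        simpa [bb] using hF
      linarith
    refine ⟨∅, ?_, ?_, ?_⟩
    · rw [SimpleGraph.isNClique_iff]
      simp
    · rw [h0]
      exact notMem_empty _
    · have h3 : nb G ∅ Y = Y := by
        unfold nb
        apply Finset.filter_true_of_mem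
        intro v _ x hx
        exact absurd hx (notMem_empty x)
      rw [h3]
      have h4 : mu p 0 = del 0 := by
        simp only [mu, del]
        norm_num
      rw [h4]
      exact hY
  | succ j ih =>
    have h1 := ih (by omega)
    have hmu : 0 < mu p j := by
      unfold mu
      positivity
    have hbb : ∀ i, 0 ≤ bb p i := by
      intro i
      induction i with
      | zero => simp [bb]
      | succ i ih2 =>
        have : 0 < mu p i := by
          unfold mu
          positivity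
        simp only [bb]
        positivity
    have hγ : (0 : ℝ) < (1 / 2) ^ (j + 2) := by positivity
    have hcond : 8 * κ ≤ (1 / 2) ^ (j + 2) * p * mu p j := by
      have e1 : (1 / 2 : ℝ) ^ (j + 2) * p * mu p j = (1 / 2) ^ (3 * j + 3) * p ^ (j + 1) := by
        unfold mu
        have e2 : (p / 4) ^ j = p ^ j * (1 / 2) ^ (2 * j) := by
          rw [pow_mul, ← mul_pow]
          congr 1
          ring
        rw [e2]
        have e3 : (1 / 2 : ℝ) ^ (3 * j + 3) = (1 / 2) ^ (j + 2) * (1 / 2) * (1 / 2) ^ (2 * j) := by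
          rw [← pow_succ, ← pow_add]
          congr 1
          omega
        rw [e3]
        ring
      rw [e1]
      have e4 : (8 : ℝ) * (1 / 2) ^ (3 * k) = (1 / 2) ^ (3 * k - 3) := by
        have : 3 * k = (3 * k - 3) + 3 := by omega
        rw [this, pow_add]
        norm_num
        ring
      have e5 : (1 / 2 : ℝ) ^ (3 * k - 3) ≤ (1 / 2) ^ (3 * j + 3) :=
        pow_le_pow_of_le_one (by norm_num) (by norm_num) (by omega)
      have e6 : p ^ (k - 1) ≤ p ^ (j + 1) :=
        pow_le_pow_of_le_one hp0.le hp1 (by omega)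
      calc 8 * κ ≤ 8 * ((1 / 2) ^ (3 * k) * p ^ (k - 1)) := by linarith
        _ = (1 / 2) ^ (3 * k - 3) * p ^ (k - 1) := by rw [← mul_assoc, e4]
        _ ≤ (1 / 2) ^ (3 * j + 3) * p ^ (j + 1) :=
            mul_le_mul e5 e6 (by positivity) (by positivity)
    have h2 := ext_step G hn hp0 hp1 hmu (hbb j) hγ hlow h1 hcond
    have e1 : del j + (1 / 2) ^ (j + 2) = del (j + 1) := by
      simp only [del]
      ring
    have e2 : p * mu p j / 4 = mu p (j + 1) := by
      simp only [mu]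
      ring
    rw [e1, e2] at h2
    exact h2

theorem bb_eq (p : ℝ) (j : ℕ) : bb p j = bb 1 j * p ^ (j.choose 2) := by
  induction j with
  | zero => simp [bb]
  | succ j ih =>
    have h1 : (j + 1).choose 2 = j.choose 2 + j := by
      rw [Nat.choose_succ_succ' j 1, Nat.choose_one_right]
      ring
    have h2 : bb p (j + 1) = bb p j * mu p j / (2 * ((j : ℝ) + 1)) := rfl
    have h3 : bb 1 (j + 1) = bb 1 j * mu 1 j / (2 * ((j : ℝ) + 1)) := rfl
    have h4 : mu p j = mu 1 j * p ^ j := by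
      simp only [mu]
      rw [mul_assoc, ← mul_pow]
      congr 2
      ring
    rw [h2, h3, ih, h1, pow_add, h4]
    ring

theorem bb_pos (j : ℕ) : 0 < bb 1 j := by
  induction j with
  | zero => simp [bb]
  | succ j ih =>
    have h3 : bb 1 (j + 1) = bb 1 j * mu 1 j / (2 * ((j : ℝ) + 1)) := rfl
    have h4 : 0 < mu 1 j := by
      unfold mu
      positivity
    rw [h3]
    positivity

open Classical in
private theorem Cnt_pairs (G : SimpleGraph (Fin n)) [DecidableRel G.Adj] (m : ℕ)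
    (F : Finset (Finset (Fin n))) (hF : ∀ X ∈ F, G.IsNClique m X) :
    ∑ X ∈ F, (nb G X univ).card ≤
      (m + 1) * ((univ : Finset (Finset (Fin n))).filter (fun S => G.IsNClique (m + 1) S)).card := by
  have hnot : ∀ X v, v ∈ nb G X univ → v ∉ X := by
    intro X v hv hvX
    have := (Finset.mem_filter.mp hv).2 v hvX
    exact G.loopless.irrefl v this
  have h1 : ∑ X ∈ F, (nb G X univ).card = (F.sigma fun X => nb G X univ).card := by
    rw [Finset.card_sigma]
  have h2 : ((((univ : Finset (Finset (Fin n))).filter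
      (fun S => G.IsNClique (m + 1) S)).sigma fun S => S).card) =
      (m + 1) * ((univ : Finset (Finset (Fin n))).filter (fun S => G.IsNClique (m + 1) S)).card := by
    rw [Finset.card_sigma, Finset.sum_congr rfl (g := fun _ => m + 1)]
    · rw [Finset.sum_const, smul_eq_mul, mul_comm]
    · intro S hS
      exact (Finset.mem_filter.mp hS).2.card_eq
  rw [h1, ← h2]
  apply Finset.card_le_card_of_injOn
    (fun q : (Σ _ : Finset (Fin n), Fin n) => (⟨insert q.2 q.1, q.2⟩ : Σ _ : Finset (Fin n), Fin n))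
  · rintro ⟨X, v⟩ hq
    rw [Finset.mem_coe, Finset.mem_sigma] at hq
    obtain ⟨hX, hv⟩ := hq
    rw [Finset.mem_coe, Finset.mem_sigma]
    refine ⟨?_, Finset.mem_insert_self _ _⟩
    rw [Finset.mem_filter]
    refine ⟨Finset.mem_univ _, ?_⟩
    apply (hF X hX).insert
    intro b hb
    exact ((Finset.mem_filter.mp hv).2 b hb).symm
  · rintro ⟨X, v⟩ hq ⟨X', v'⟩ hq' he
    rw [Finset.mem_coe, Finset.mem_sigma] at hq hq'
    have hv := hnot X v hq.2
    have hv' := hnot X' v' hq'.2
    simp only [Sigma.mk.injEq, heq_eq_eq] at he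
    obtain ⟨h3, h4⟩ := he
    subst h4
    have h5 : X = X' := by
      rw [← Finset.erase_insert hv, h3, Finset.erase_insert hv']
    rw [h5]

theorem cliques_ge (G : SimpleGraph (Fin n)) [DecidableRel G.Adj] {p κ : ℝ} {k : ℕ} (hk : 2 ≤ k)
    (hn : 0 < n) (hp0 : 0 < p) (hp1 : p ≤ 1) (hlow : Low G p κ)
    (hκ : κ ≤ (1 / 2) ^ (3 * k) * p ^ (k - 1)) :
    bb 1 (k - 1) * mu 1 (k - 1) / k * p ^ (k.choose 2) * (n : ℝ) ^ k ≤
      (({s : Finset (Fin n) | G.IsNClique k s}).ncard : ℝ) := by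
  classical
  obtain ⟨m, rfl⟩ : ∃ m, k = m + 1 := ⟨k - 1, by omega⟩
  rw [Nat.add_sub_cancel]
  have hE := ext_all G hk hn hp0 hp1 hlow hκ m le_rfl
  have hmu : 0 < mu p m := by
    unfold mu
    positivity
  let F : Finset (Finset (Fin n)) := univ.filter (fun X => G.IsNClique m X ∧
    mu p m * n ≤ ((nb G X univ).card : ℝ))
  have hFc : bb p m * (n : ℝ) ^ m < (F.card : ℝ) := by
    by_contra hc
    push Not at hc
    have hY : del m * n ≤ ((univ : Finset (Fin n)).card : ℝ) := by
      rw [Finset.card_univ, Fintype.card_fin]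
      have h1 : del m ≤ 1 := by
        unfold del
        have : (0 : ℝ) < (1 / 2) ^ (m + 1) := by positivity
        linarith
      have h2 : (0 : ℝ) ≤ n := Nat.cast_nonneg n
      nlinarith
    obtain ⟨X, hX1, hX2, hX3⟩ := hE univ hY F hc
    exact hX2 (Finset.mem_filter.mpr ⟨Finset.mem_univ _, hX1, hX3⟩)
  have hcl : ((({s : Finset (Fin n) | G.IsNClique (m + 1) s}).ncard : ℕ)) =
      ((univ : Finset (Finset (Fin n))).filter (fun S => G.IsNClique (m + 1) S)).card := by
    rw [← Set.ncard_coe_finset]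
    congr 1
    ext S
    simp
  have hsum := Cnt_pairs G m F (fun X hX => (Finset.mem_filter.mp hX).2.1)
  have hsum' : (F.card : ℝ) * (mu p m * n) ≤
      ((m : ℝ) + 1) * (({s : Finset (Fin n) | G.IsNClique (m + 1) s}).ncard : ℝ) := by
    have h1 : (F.card : ℝ) * (mu p m * n) ≤ ∑ X ∈ F, ((nb G X univ).card : ℝ) := by
      rw [← nsmul_eq_mul, ← Finset.sum_const]
      exact Finset.sum_le_sum fun X hX => (Finset.mem_filter.mp hX).2.2
    have h2 : (∑ X ∈ F, ((nb G X univ).card : ℝ)) ≤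
        ((m : ℝ) + 1) * (({s : Finset (Fin n) | G.IsNClique (m + 1) s}).ncard : ℝ) := by
      rw [hcl]
      exact_mod_cast hsum
    exact h1.trans h2
  have hmn : 0 ≤ mu p m * (n : ℝ) := by positivity
  have hmain : bb p m * (n : ℝ) ^ m * (mu p m * n) ≤
      ((m : ℝ) + 1) * (({s : Finset (Fin n) | G.IsNClique (m + 1) s}).ncard : ℝ) :=
    (mul_le_mul_of_nonneg_right hFc.le hmn).trans hsum'
  have hch : (m + 1).choose 2 = m.choose 2 + m := by
    rw [Nat.choose_succ_succ' m 1, Nat.choose_one_right]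
    ring
  have hmu1 : mu p m = mu 1 m * p ^ m := by
    simp only [mu]
    rw [mul_assoc, ← mul_pow]
    congr 2
    ring
  have hm1 : (0 : ℝ) < (m : ℝ) + 1 := by positivity
  have hcast : ((m + 1 : ℕ) : ℝ) = (m : ℝ) + 1 := by push_cast; ring
  have hfin : bb 1 m * mu 1 m / ((m + 1 : ℕ) : ℝ) * p ^ ((m + 1).choose 2) * (n : ℝ) ^ (m + 1) =
      (bb p m * (n : ℝ) ^ m * (mu p m * n)) / ((m : ℝ) + 1) := by
    rw [hcast, hch, bb_eq p m, hmu1, pow_add, pow_succ]
    field_simp
  rw [hfin, div_le_iff₀ hm1]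
  linarith

end Pool.Agent.H10.EO
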