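import Pool.Agent.H99.HalfDense

/-!
# Definitions for the order of the admissible error (MP_0a407b_co)

`ins G W` = number of edges of `G` inside `W`. `Low G p κ`: the form `A - p J` is at least
`- κ n²` on all functions bounded by one. `Ext G δ b μ j`: every set `Y` of at least `δ n`
vertices contains at least `μ n` common neighbours of some `j`-clique outside any given family of
at most `b n^j` sets.
-/

set_option autoImplicit false

namespace Pool.Agent.H10.EO

open Finset Pool.Agent.H99.HalfDense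

variable {n : ℕ}

/-- number of edges inside `W` -/
noncomputable def ins (G : SimpleGraph (Fin n)) (W : Finset (Fin n)) : ℝ :=
  (({e : Sym2 (Fin n) | e ∈ G.edgeSet ∧ ∀ v ∈ e, v ∈ W}).ncard : ℝ)

/-- the form of `A - p J` is at least `- κ n²` on functions bounded by one -/
def Low (G : SimpleGraph (Fin n)) [DecidableRel G.Adj] (p κ : ℝ) : Prop :=
  ∀ f : Fin n → ℝ, (∀ v, |f v| ≤ 1) → -(κ * (n : ℝ) ^ 2) ≤ B G f f - p * (∑ v, f v) ^ 2

/-- common neighbours of `X` in `Y` -/
def nb (G : SimpleGraph (Fin n)) [DecidableRel G.Adj] (X Y : Finset (Fin n)) :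
    Finset (Fin n) := Y.filter (fun v => ∀ x ∈ X, G.Adj x v)

/-- every set `Y` of at least `δ n` vertices contains at least `μ n` common neighbours of some
`j`-clique outside any given family `F` of at most `b n^j` sets -/
def Ext (G : SimpleGraph (Fin n)) [DecidableRel G.Adj] (δ b μ : ℝ) (j : ℕ) : Prop :=
  ∀ Y : Finset (Fin n), δ * n ≤ (Y.card : ℝ) → ∀ F : Finset (Finset (Fin n)),
    (F.card : ℝ) ≤ b * (n : ℝ) ^ j →
      ∃ X : Finset (Fin n), G.IsNClique j X ∧ X ∉ F ∧ μ * n ≤ ((nb G X Y).card : ℝ)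

/-- the sequence of proportions `μ_j = (1/2) (p/4)^j` -/
noncomputable def mu (p : ℝ) (j : ℕ) : ℝ := 1 / 2 * (p / 4) ^ j

/-- the sequence `b_0 = 1/2`, `b_(j+1) = b_j μ_j / (2 (j+1))` -/
noncomputable def bb (p : ℝ) : ℕ → ℝ
  | 0 => 1 / 2
  | (j + 1) => bb p j * mu p j / (2 * ((j : ℝ) + 1))

/-- `δ_j = 1 - 2^(-(j+1))` -/
noncomputable def del (j : ℕ) : ℝ := 1 - (1 / 2) ^ (j + 1)

end Pool.Agent.H10.EO
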