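import Mathlib

/-!
# Module Dsc: a discrepancy lemma by conditional expectations

PROOF. For `S, Ω' ⊆ Ω` and `A` in the family put
`D A = |S ∩ A| - ρ |Ω' ∩ A|` and `Φ = ∑_A (exp (t D A) + exp (- t D A))`. Induction on `Ω'` (insert
`x`): there is `S ⊆ Ω'` with `Φ ≤ 2 |𝓕| exp (t² |Ω'|)`. For `Ω' = ∅`: `Φ = 2 |𝓕|`. Step: the two
choices `x ∈ S`, `x ∉ S` change `D A` by `1 - ρ`, `- ρ` for the `A` containing `x` and by `0` for the
others; the average with weights `ρ`, `1 - ρ` of `exp (± t change)` is at most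
`ρ exp (± t (1 - ρ)) + (1 - ρ) exp (∓ t ρ) ≤ 1 + t² ≤ exp (t²)` (use
`exp y ≤ 1 + y + y²` for `|y| ≤ 1`, and `ρ (1-ρ)² + (1-ρ) ρ² = ρ (1-ρ) ≤ 1`), so one of the
choices has `Φ ≤ exp (t²)` times the old `Φ`. At the end each single term is at most `Φ`, so
`t |D A| ≤ log (2 |𝓕|) + t² |Ω|`.
-/

set_option autoImplicit false

namespace Pool.Agent.H10.EO

open Finset

theorem exp_quad {y : ℝ} (hy : |y| ≤ 1) : Real.exp y ≤ 1 + y + y ^ 2 := by
  have h := Real.abs_exp_sub_one_sub_id_le hy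
  have h2 := (abs_le.mp h).2
  linarith

private theorem Dsc_two {ρ s : ℝ} (hρ0 : 0 ≤ ρ) (hρ1 : ρ ≤ 1) (hs : |s| ≤ 1) :
    ρ * Real.exp (s * (1 - ρ)) + (1 - ρ) * Real.exp (-(s * ρ)) ≤ Real.exp (s ^ 2) := by
  have h1 : |s * (1 - ρ)| ≤ 1 := by
    rw [abs_mul, abs_of_nonneg (by linarith : (0:ℝ) ≤ 1 - ρ)]
    have := abs_nonneg s
    nlinarith
  have h2 : |-(s * ρ)| ≤ 1 := by
    rw [abs_neg, abs_mul, abs_of_nonneg hρ0]
    have := abs_nonneg s
    nlinarith
  have e1 := mul_le_mul_of_nonneg_left (exp_quad h1) hρ0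
  have e2 := mul_le_mul_of_nonneg_left (exp_quad h2) (by linarith : (0:ℝ) ≤ 1 - ρ)
  have e3 : s ^ 2 + 1 ≤ Real.exp (s ^ 2) := Real.add_one_le_exp _
  have e4 : ρ * (1 - ρ) * s ^ 2 ≤ 1 * s ^ 2 := by
    apply mul_le_mul_of_nonneg_right _ (sq_nonneg s)
    nlinarith
  nlinarith

private noncomputable def Dsc_D {T : Type} [DecidableEq T] (ρ : ℝ) (S O A : Finset T) : ℝ :=
  ((S ∩ A).card : ℝ) - ρ * ((O ∩ A).card : ℝ)

private noncomputable def Dsc_f {T : Type} [DecidableEq T] (ρ t : ℝ) (S O A : Finset T) : ℝ :=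
  Real.exp (t * Dsc_D ρ S O A) + Real.exp (-(t * Dsc_D ρ S O A))

private theorem Dsc_step {T : Type} [DecidableEq T] {ρ t : ℝ} (hρ0 : 0 ≤ ρ) (hρ1 : ρ ≤ 1)
    (ht0 : 0 < t) (ht1 : t ≤ 1) {S O : Finset T} (A : Finset T) {x : T} (hS : S ⊆ O) (hx : x ∉ O) :
    ρ * Dsc_f ρ t (insert x S) (insert x O) A + (1 - ρ) * Dsc_f ρ t S (insert x O) A
      ≤ Real.exp (t ^ 2) * Dsc_f ρ t S O A := by
  have hxS : x ∉ S := fun h => hx (hS h)
  have hpos : 0 ≤ Dsc_f ρ t S O A := by unfold Dsc_f; positivity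
  have hone : 1 ≤ Real.exp (t ^ 2) := Real.one_le_exp (sq_nonneg t)
  by_cases hA : x ∈ A
  · have c1 : ((insert x S ∩ A).card : ℝ) = (S ∩ A).card + 1 := by
      rw [Finset.insert_inter_of_mem hA, Finset.card_insert_of_notMem (by simp [hxS])]
      push_cast
      ring
    have c2 : ((insert x O ∩ A).card : ℝ) = (O ∩ A).card + 1 := by
      rw [Finset.insert_inter_of_mem hA, Finset.card_insert_of_notMem (by simp [hx])]
      push_cast
      ring
    have d1 : Dsc_D ρ (insert x S) (insert x O) A = Dsc_D ρ S O A + (1 - ρ) := by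
      unfold Dsc_D
      rw [c1, c2]
      ring
    have d2 : Dsc_D ρ S (insert x O) A = Dsc_D ρ S O A - ρ := by
      unfold Dsc_D
      rw [c2]
      ring
    unfold Dsc_f
    rw [d1, d2]
    generalize Dsc_D ρ S O A = D
    have hp := Dsc_two hρ0 hρ1 (s := t) (by rw [abs_of_pos ht0]; exact ht1)
    have hm := Dsc_two hρ0 hρ1 (s := -t) (by rw [abs_neg, abs_of_pos ht0]; exact ht1)
    have e1 : Real.exp (t * (D + (1 - ρ))) = Real.exp (t * D) * Real.exp (t * (1 - ρ)) := by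
      rw [← Real.exp_add]; congr 1; ring
    have e2 : Real.exp (-(t * (D + (1 - ρ)))) = Real.exp (-(t * D)) * Real.exp (-t * (1 - ρ)) := by
      rw [← Real.exp_add]; congr 1; ring
    have e3 : Real.exp (t * (D - ρ)) = Real.exp (t * D) * Real.exp (-(t * ρ)) := by
      rw [← Real.exp_add]; congr 1; ring
    have e4 : Real.exp (-(t * (D - ρ))) = Real.exp (-(t * D)) * Real.exp (-(-t * ρ)) := by
      rw [← Real.exp_add]; congr 1; ring
    rw [e1, e2, e3, e4]
    have f1 := mul_le_mul_of_nonneg_left hp (Real.exp_pos (t * D)).le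
    have f2 := mul_le_mul_of_nonneg_left hm (Real.exp_pos (-(t * D))).le
    rw [neg_sq] at f2
    nlinarith [f1, f2]
  · have d1 : Dsc_f ρ t (insert x S) (insert x O) A = Dsc_f ρ t S O A := by
      unfold Dsc_f Dsc_D
      rw [Finset.insert_inter_of_notMem hA, Finset.insert_inter_of_notMem hA]
    have d2 : Dsc_f ρ t S (insert x O) A = Dsc_f ρ t S O A := by
      unfold Dsc_f Dsc_D
      rw [Finset.insert_inter_of_notMem hA]
    rw [d1, d2]
    nlinarith

private theorem Dsc_ind {T : Type} [DecidableEq T] (Fam : Finset (Finset T)) {ρ t : ℝ}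
    (hρ0 : 0 ≤ ρ) (hρ1 : ρ ≤ 1) (ht0 : 0 < t) (ht1 : t ≤ 1) (O : Finset T) :
    ∃ S ⊆ O, ∑ A ∈ Fam, Dsc_f ρ t S O A ≤
      2 * (Fam.card : ℝ) * Real.exp (t ^ 2 * (O.card : ℝ)) := by
  induction O using Finset.induction_on with
  | empty =>
      refine ⟨∅, subset_rfl, ?_⟩
      have : ∀ A ∈ Fam, Dsc_f ρ t (∅ : Finset T) ∅ A = 2 := by
        intro A _
        unfold Dsc_f Dsc_D
        simp
        norm_num
      rw [Finset.sum_congr rfl this]
      simp
      linarith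
  | insert x O hx ih =>
      obtain ⟨S, hS, hb⟩ := ih
      have hsum : ρ * (∑ A ∈ Fam, Dsc_f ρ t (insert x S) (insert x O) A)
          + (1 - ρ) * (∑ A ∈ Fam, Dsc_f ρ t S (insert x O) A)
          ≤ Real.exp (t ^ 2) * ∑ A ∈ Fam, Dsc_f ρ t S O A := by
        rw [Finset.mul_sum, Finset.mul_sum, Finset.mul_sum, ← Finset.sum_add_distrib]
        exact Finset.sum_le_sum fun A _ => Dsc_step hρ0 hρ1 ht0 ht1 A hS hx
      have hc : Real.exp (t ^ 2) * (2 * (Fam.card : ℝ) * Real.exp (t ^ 2 * (O.card : ℝ)))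
          = 2 * (Fam.card : ℝ) * Real.exp (t ^ 2 * ((insert x O).card : ℝ)) := by
        rw [Finset.card_insert_of_notMem hx]
        have : Real.exp (t ^ 2 * (((O.card + 1 : ℕ)) : ℝ))
            = Real.exp (t ^ 2) * Real.exp (t ^ 2 * (O.card : ℝ)) := by
          rw [← Real.exp_add]; congr 1; push_cast; ring
        rw [this]
        ring
      have hb2 := mul_le_mul_of_nonneg_left hb (Real.exp_pos (t ^ 2)).le
      rw [hc] at hb2
      by_contra hcon
      push Not at hcon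
      have h1 := hcon (insert x S) (Finset.insert_subset_insert x hS)
      have h2 := hcon S (hS.trans (Finset.subset_insert x O))
      have h3 : 0 ≤ 1 - ρ := by linarith
      have k1 := mul_le_mul_of_nonneg_left h1.le hρ0
      have k2 := mul_le_mul_of_nonneg_left h2.le h3
      rcases lt_or_ge 0 ρ with hp | hp
      · have k3 := mul_lt_mul_of_pos_left h1 hp
        nlinarith
      · have : ρ = 0 := le_antisymm hp hρ0
        subst this
        nlinarith

theorem discrepancy {T : Type} [DecidableEq T] (Om : Finset T) (Fam : Finset (Finset T)) {ρ t : ℝ}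
    (hρ0 : 0 ≤ ρ) (hρ1 : ρ ≤ 1) (ht0 : 0 < t) (ht1 : t ≤ 1) :
    ∃ S ⊆ Om, ∀ A ∈ Fam, A ⊆ Om →
      |((S ∩ A).card : ℝ) - ρ * (A.card : ℝ)| ≤
        (Real.log (2 * (Fam.card : ℝ)) + t ^ 2 * (Om.card : ℝ)) / t := by
  obtain ⟨S, hS, hb⟩ := Dsc_ind Fam hρ0 hρ1 ht0 ht1 Om
  refine ⟨S, hS, fun A hA hAO => ?_⟩
  have hint : Om ∩ A = A := Finset.inter_eq_right.mpr hAO
  have hD : Dsc_D ρ S Om A = ((S ∩ A).card : ℝ) - ρ * (A.card : ℝ) := by
    unfold Dsc_D
    rw [hint]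
  have hpos : ∀ B ∈ Fam, 0 ≤ Dsc_f ρ t S Om B := by
    intro B _
    unfold Dsc_f
    positivity
  have hle := (Finset.single_le_sum hpos hA).trans hb
  have hcard : 0 < (Fam.card : ℝ) := by
    have : 0 < Fam.card := Finset.card_pos.mpr ⟨A, hA⟩
    exact_mod_cast this
  have hbd : ∀ u : ℝ, Real.exp u ≤ 2 * (Fam.card : ℝ) * Real.exp (t ^ 2 * (Om.card : ℝ)) →
      u ≤ Real.log (2 * (Fam.card : ℝ)) + t ^ 2 * (Om.card : ℝ) := by
    intro u hu
    have h2 : (0:ℝ) < 2 * (Fam.card : ℝ) := by linarith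
    have h3 := Real.log_le_log (Real.exp_pos u) hu
    rw [Real.log_exp, Real.log_mul h2.ne' (Real.exp_pos _).ne', Real.log_exp] at h3
    exact h3
  unfold Dsc_f at hle
  rw [hD] at hle
  have g1 := hbd _ ((le_add_of_nonneg_right (Real.exp_pos _).le).trans hle)
  have g2 := hbd _ ((le_add_of_nonneg_left (Real.exp_pos _).le).trans hle)
  rw [le_div_iff₀ ht0]
  rcases abs_cases (((S ∩ A).card : ℝ) - ρ * (A.card : ℝ)) with ⟨h, _⟩ | ⟨h, _⟩
  · rw [h]; linarith
  · rw [h]; linarith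

end Pool.Agent.H10.EO
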