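import Pool.Agent.H10.EO.Defs

/-!
# Module Frm: from sets of a fixed proportion to the form, linear in the error

PROOF. Write `T = B G 1 1 = 2 ⌊c n²⌋` (`ncard_inside G univ`), so `T ≤ 2 c n²`, `p = T / n²`,
`m = ⌊α n⌋`, `β = m / n`, `α / 2 ≤ β ≤ α` (from `2 / α ≤ n`), `η = 2 ε α² c`.
(1) For `f : V → [0,1]` with `∑ f = m`: `2 (1 - ε) α² c n² ≤ B G f f` (`pipage`, `ncard_inside`).
(2) Let `|x v| ≤ 1`, `∑ x = 0`, `D = B G 1 x`, `R = B G x x`. For `|t| ≤ τ` the function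
`β + t x` has values in `[0,1]` (`τ ≤ α/2 ≤ β` and `β + τ ≤ α + τ ≤ 1`) and sum `m`, so by `Q_lin`
`2 (1-ε) α² c n² ≤ β² T + 2 β t D + t² R`, and `β² T ≤ 2 α² c n²`, hence
`- η n² ≤ 2 β t D + t² R`. With `t = τ` and `t = - τ`: `2 β τ |D| ≤ η n² + τ² R`; in particular
`- η n² ≤ τ² R`.
(3) Let `|f v| ≤ 1`, `μ = (∑ f)/n`, `x = (f - μ)/2`; then `|x| ≤ 1`, `∑ x = 0`, `f = μ + 2 x`,
`B G f f - p (∑ f)² = μ² T + 4 μ D + 4 R - p μ² n² = 4 μ D + 4 R ≥ 4 R - 4 |D|`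
`≥ 4 R - (2 / (β τ)) (η n² + τ² R) = R (4 - 2 τ / β) - 2 η n² / (β τ)`. As `τ ≤ β` the factor of
`R` is in `[2, 4]` and `1/(β τ) ≤ 1/τ²`. If `R ≥ 0` this is `≥ - 2 η n² / τ²`; if `R < 0` it is
`≥ 4 R - 2 η n²/τ² ≥ - 6 η n² / τ²`. Finally `6 η / τ² = 12 ε α² c / τ²`.
Compare `Pool/Agent/H1/UH/Form.lean` (`reg_of_low`, `form_lower`) and `H1/UH/Fin.lean` (`sharp`),
where the same steps are done with a worse (square root) dependence.
-/

set_option autoImplicit false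

namespace Pool.Agent.H10.EO

open Finset Pool.Agent.H99.HalfDense

variable {n : ℕ}

theorem frm_total (G : SimpleGraph (Fin n)) [DecidableRel G.Adj] {c : ℝ}
    (hcard : G.edgeSet.ncard = ⌊c * (n : ℝ) ^ 2⌋₊) :
    B G (fun _ => 1) (fun _ => 1) = 2 * (⌊c * (n : ℝ) ^ 2⌋₊ : ℝ) := by
  have h := ncard_inside G Finset.univ
  have h2 : {e : Sym2 (Fin n) | e ∈ G.edgeSet ∧ ∀ v ∈ e, v ∈ (Finset.univ : Finset (Fin n))} =
      G.edgeSet := by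
    ext e
    simp
  have h3 : (fun v : Fin n => if v ∈ (Finset.univ : Finset (Fin n)) then (1 : ℝ) else 0) =
      fun _ => 1 := by
    funext v
    simp
  rw [h2, h3, hcard] at h
  exact h

private theorem Frm_one (G : SimpleGraph (Fin n)) [DecidableRel G.Adj] {m : ℕ} {K : ℝ}
    (hW : ∀ W : Finset (Fin n), W.card = m → K ≤ ins G W) (f : Fin n → ℝ)
    (hf : ∀ v, 0 ≤ f v ∧ f v ≤ 1) (hs : ∑ v, f v = m) : 2 * K ≤ B G f f := by
  obtain ⟨W, hWm, hWB⟩ := pipage G m _ f hf hs rfl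
  rw [ncard_inside] at hWB
  have h := hW W hWm
  unfold ins at h
  linarith

private theorem Frm_two {E S D R τ μ β : ℝ} (hE : 0 ≤ E) (hτ : 0 < τ) (hβ : τ ≤ β)
    (hμ : |μ| ≤ 1) (hS : S = E + τ ^ 2 * R) (h1 : 2 * β * τ * D ≤ S) (h2 : -(2 * β * τ * D) ≤ S) :
    -(6 * E) ≤ τ ^ 2 * (4 * μ * D + 4 * R) := by
  have h3 : 2 * β * τ * |D| ≤ S := by
    rcases abs_cases D with ⟨e, _⟩ | ⟨e, _⟩
    · rw [e]; exact h1
    · rw [e]; linarith
  have h4 : 2 * τ ^ 2 * |D| ≤ 2 * β * τ * |D| := by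
    have : 2 * τ ^ 2 ≤ 2 * β * τ := by nlinarith
    exact mul_le_mul_of_nonneg_right this (abs_nonneg D)
  have h5 : -|D| ≤ μ * D := by
    have h6 : |μ * D| ≤ |D| := by
      rw [abs_mul]
      exact mul_le_of_le_one_left (abs_nonneg D) hμ
    have := neg_abs_le (μ * D)
    linarith
  have h6 : τ ^ 2 * (-|D|) ≤ τ ^ 2 * (μ * D) := mul_le_mul_of_nonneg_left h5 (sq_nonneg τ)
  have h7 : 0 ≤ 2 * τ ^ 2 * |D| := by positivity
  have e : τ ^ 2 * (4 * μ * D + 4 * R) = 4 * (τ ^ 2 * (μ * D)) + 4 * (τ ^ 2 * R) := by ring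
  rw [e]
  nlinarith

theorem low_of_sets (G : SimpleGraph (Fin n)) [DecidableRel G.Adj] {α c ε τ : ℝ} (hα0 : 0 < α)
    (hα1 : α < 1) (hc : 0 < c) (hε : 0 ≤ ε) (hτ0 : 0 < τ) (hτ1 : 2 * τ ≤ α) (hτ2 : 2 * τ ≤ 1 - α)
    (hn : 2 / α ≤ n) (hcard : G.edgeSet.ncard = ⌊c * (n : ℝ) ^ 2⌋₊)
    (hW : ∀ W : Finset (Fin n), W.card = ⌊α * (n : ℝ)⌋₊ →
      (1 - ε) * (α ^ 2 * c * (n : ℝ) ^ 2) ≤ ins G W) :
    Low G (B G (fun _ => 1) (fun _ => 1) / (n : ℝ) ^ 2) (12 * ε * α ^ 2 * c / τ ^ 2) := by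
  have hN : 0 < (n : ℝ) := lt_of_lt_of_le (div_pos two_pos hα0) hn
  have hαN : 2 ≤ α * (n : ℝ) := by
    rw [div_le_iff₀ hα0] at hn
    linarith
  have hT : B G (fun _ => 1) (fun _ => 1) ≤ 2 * (c * (n : ℝ) ^ 2) := by
    rw [frm_total G hcard]
    have := Nat.floor_le (show 0 ≤ c * (n : ℝ) ^ 2 by positivity)
    linarith
  have hT0 : 0 ≤ B G (fun _ => 1) (fun _ => 1) := by
    rw [frm_total G hcard]
    positivity
  set T : ℝ := B G (fun _ => 1) (fun _ => 1) with hTdef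
  obtain ⟨m, hm⟩ : ∃ m : ℕ, m = ⌊α * (n : ℝ)⌋₊ := ⟨_, rfl⟩
  have hm1 : (m : ℝ) ≤ α * (n : ℝ) := by
    rw [hm]
    exact Nat.floor_le (by positivity)
  have hm2 : α * (n : ℝ) < (m : ℝ) + 1 := by
    rw [hm]
    exact Nat.lt_floor_add_one _
  set β : ℝ := (m : ℝ) / (n : ℝ) with hβdef
  have hβN : β * (n : ℝ) = m := div_mul_cancel₀ _ hN.ne'
  have hβ1 : β ≤ α := by
    rw [hβdef, div_le_iff₀ hN]
    exact hm1
  have hβ2 : τ ≤ β := by
    have : α / 2 ≤ β := by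
      rw [hβdef, le_div_iff₀ hN]
      linarith
    linarith
  have hβ0 : 0 < β := lt_of_lt_of_le hτ0 hβ2
  set E : ℝ := 2 * ε * (α ^ 2 * c * (n : ℝ) ^ 2) with hE
  have hE0 : 0 ≤ E := by positivity
  have step : ∀ x : Fin n → ℝ, (∀ v, |x v| ≤ 1) → ∑ v, x v = 0 → ∀ t : ℝ, |t| ≤ τ →
      -(2 * β * t * B G (fun _ => 1) x) ≤ E + t ^ 2 * B G x x := by
    intro x hx hx0 t ht
    have h1 : ∀ v, 0 ≤ β * (1 : ℝ) + t * x v ∧ β * (1 : ℝ) + t * x v ≤ 1 := by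
      intro v
      have h2 : |t * x v| ≤ τ := by
        rw [abs_mul]
        calc |t| * |x v| ≤ τ * 1 := mul_le_mul ht (hx v) (abs_nonneg _) hτ0.le
          _ = τ := mul_one τ
      have h3 := abs_le.1 h2
      constructor <;> linarith
    have h2 : ∑ v, (β * (1 : ℝ) + t * x v) = (m : ℝ) := by
      rw [Finset.sum_add_distrib, ← Finset.mul_sum, ← Finset.mul_sum, hx0]
      simp only [Finset.sum_const, Finset.card_univ, Fintype.card_fin, nsmul_eq_mul, mul_one,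
        mul_zero, add_zero]
      exact hβN
    have h3 := Frm_one G (m := m) (K := (1 - ε) * (α ^ 2 * c * (n : ℝ) ^ 2))
      (fun W h => hW W (h.trans hm)) (fun v => β * (1 : ℝ) + t * x v) h1 h2
    have h4 := Q_lin G (fun _ => (1 : ℝ)) x β t
    rw [h4, ← hTdef] at h3
    have h5 : β ^ 2 * T ≤ α ^ 2 * (2 * (c * (n : ℝ) ^ 2)) := by
      have h6 : β ^ 2 ≤ α ^ 2 := pow_le_pow_left₀ hβ0.le hβ1 2
      exact mul_le_mul h6 hT hT0 (by positivity)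
    have h6 : E = 2 * (α ^ 2 * c * (n : ℝ) ^ 2) - 2 * ((1 - ε) * (α ^ 2 * c * (n : ℝ) ^ 2)) := by
      rw [hE]; ring
    rw [h6]
    have h7 : α ^ 2 * (2 * (c * (n : ℝ) ^ 2)) = 2 * (α ^ 2 * c * (n : ℝ) ^ 2) := by ring
    linarith
  intro f hf
  set μ : ℝ := (∑ v, f v) / (n : ℝ) with hμ
  have hμN : μ * (n : ℝ) = ∑ v, f v := div_mul_cancel₀ _ hN.ne'
  have hμ1 : |μ| ≤ 1 := by
    rw [hμ, abs_div, abs_of_pos hN, div_le_one hN]
    calc |∑ v, f v| ≤ ∑ v, |f v| := Finset.abs_sum_le_sum_abs _ _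
      _ ≤ ∑ _v : Fin n, (1 : ℝ) := Finset.sum_le_sum fun v _ => hf v
      _ = (n : ℝ) := by simp
  set x : Fin n → ℝ := fun v => (f v - μ) / 2 with hx
  have hx1 : ∀ v, |x v| ≤ 1 := by
    intro v
    have h1 := abs_le.1 (hf v)
    have h2 := abs_le.1 hμ1
    rw [abs_le]
    simp only [hx]
    constructor <;> linarith [h1.1, h1.2, h2.1, h2.2]
  have hx0 : ∑ v, x v = 0 := by
    simp only [hx]
    rw [← Finset.sum_div, Finset.sum_sub_distrib]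
    simp only [Finset.sum_const, Finset.card_univ, Fintype.card_fin, nsmul_eq_mul]
    rw [← hμN]
    ring
  have hfx : f = fun v => μ * (1 : ℝ) + 2 * x v := by
    funext v
    simp only [hx]
    ring
  have hB : B G f f = μ ^ 2 * T + 2 * μ * 2 * B G (fun _ => 1) x + 2 ^ 2 * B G x x := by
    have h := Q_lin G (fun _ => (1 : ℝ)) x μ 2
    rw [← hfx] at h
    exact h
  have hp : T / (n : ℝ) ^ 2 * (∑ v, f v) ^ 2 = μ ^ 2 * T := by
    rw [← hμN]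
    field_simp
  have k1 := step x hx1 hx0 τ (by rw [abs_of_pos hτ0])
  have k2 := step x hx1 hx0 (-τ) (by rw [abs_neg, abs_of_pos hτ0])
  have k3 := Frm_two (E := E) (S := E + τ ^ 2 * B G x x) (D := B G (fun _ => 1) x)
    (R := B G x x) (τ := τ) (μ := μ) (β := β) hE0 hτ0 hβ2 hμ1 rfl
    (by
      have e1 : (-τ) ^ 2 = τ ^ 2 := by ring
      rw [e1] at k2
      linarith)
    k1
  rw [hB, hp]
  have hτ2 : 0 < τ ^ 2 := by positivity
  have e2 : 12 * ε * α ^ 2 * c / τ ^ 2 * (n : ℝ) ^ 2 = 6 * E / τ ^ 2 := by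
    rw [hE]; ring
  rw [e2, neg_le, le_div_iff₀ hτ2]
  linarith

end Pool.Agent.H10.EO
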