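import Pool.Agent.H10.EO.Frm
import Pool.Agent.H10.EO.Cnt

/-!
# Module One: the first half

PROOF. `τ = min α (1-α) / 2`, `a = τ² (1/2)^(3k) / 12`,
`b = bb 1 (k-1) * mu 1 (k-1) / k > 0`. Given `c > 0`: if `c > 1/2` there is no such graph for
`n ≥ 2` (`⌊c n²⌋ ≤ n(n-1)/2` fails; see `sharp` in `H1/UH/Fin.lean`), take `N = 2`. If `c ≤ 1/2`, let
`N` be so large that `n ≥ 2/α`, `n ≥ 2/c`, `n ≥ 2`. Put `p = B G 1 1 / n² = 2 ⌊c n²⌋ / n²`
(`frm_total`): `c ≤ p ≤ 2 c ≤ 1` (`2 (c n² - 1) ≥ c n²` as `c n² ≥ 2`). `low_of_sets` with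
`ε = a c^(k-2)` gives `Low G p κ`, `κ = 12 a c^(k-2) α² c / τ² = (1/2)^(3k) α² c^(k-1)`
`≤ (1/2)^(3k) p^(k-1)`. `cliques_ge` and `p ≥ c`.
-/

set_option autoImplicit false

namespace Pool.Agent.H10.EO

open Finset Pool.Agent.H99.HalfDense

private theorem One_big {c : ℝ} (hc2 : 1 / 2 < c) {n : ℕ} (hn : 2 ≤ n) (G : SimpleGraph (Fin n))
    (hcard : G.edgeSet.ncard = ⌊c * (n : ℝ) ^ 2⌋₊) : False := by
  classical
  have h1 := G.card_edgeFinset_le_card_choose_two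
  rw [Fintype.card_fin] at h1
  have h2 : G.edgeSet.ncard = #G.edgeFinset := by
    rw [← SimpleGraph.coe_edgeFinset, Set.ncard_coe_finset]
  rw [← h2, hcard] at h1
  have hn2 : (2 : ℝ) ≤ n := by exact_mod_cast hn
  have h3 := Nat.lt_floor_add_one (c * (n : ℝ) ^ 2)
  have h4 : ((⌊c * (n : ℝ) ^ 2⌋₊ : ℕ) : ℝ) ≤ ((n.choose 2 : ℕ) : ℝ) := by exact_mod_cast h1
  rw [Nat.cast_choose_two] at h4
  have h5 : 1 / 2 * (n : ℝ) ^ 2 ≤ c * (n : ℝ) ^ 2 :=
    mul_le_mul_of_nonneg_right hc2.le (sq_nonneg _)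
  nlinarith

theorem half_one (k : ℕ) (hk : 2 ≤ k) (α : ℝ) (hα0 : 0 < α) (hα1 : α < 1) :
    ∃ a b : ℝ, 0 < a ∧ 0 < b ∧ ∀ c : ℝ, 0 < c → ∃ N : ℕ, ∀ n : ℕ, N ≤ n →
      ∀ G : SimpleGraph (Fin n), G.edgeSet.ncard = ⌊c * (n : ℝ) ^ 2⌋₊ →
        (∀ W : Finset (Fin n), W.card = ⌊α * (n : ℝ)⌋₊ →
          (1 - a * c ^ (k - 2)) * (α ^ 2 * c * (n : ℝ) ^ 2) ≤ ins G W) →
        b * c ^ (k.choose 2) * (n : ℝ) ^ k ≤
          (({s : Finset (Fin n) | G.IsNClique k s}).ncard : ℝ) := by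
  classical
  set τ : ℝ := min α (1 - α) / 2 with hτ
  have hm0 : 0 < min α (1 - α) := lt_min hα0 (by linarith)
  have hτ0 : 0 < τ := by positivity
  have hτ1 : 2 * τ ≤ α := by
    have := min_le_left α (1 - α)
    linarith
  have hτ2 : 2 * τ ≤ 1 - α := by
    have := min_le_right α (1 - α)
    linarith
  have hk0 : (0 : ℝ) < k := by
    have : 0 < k := by omega
    exact_mod_cast this
  have hb0 := bb_pos (k - 1)
  have hmu0 : 0 < mu 1 (k - 1) := by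
    unfold mu
    positivity
  refine ⟨τ ^ 2 * (1 / 2) ^ (3 * k) / 12, bb 1 (k - 1) * mu 1 (k - 1) / k, by positivity,
    by positivity, ?_⟩
  intro c hc
  by_cases hc2 : 1 / 2 < c
  · refine ⟨2, fun n hn G hcard _ => ?_⟩
    exfalso
    exact One_big hc2 hn G hcard
  · push Not at hc2
    obtain ⟨N, hN⟩ := exists_nat_ge (max (2 / α) (max (2 / c) 2))
    refine ⟨N, fun n hn G hcard hW => ?_⟩
    have hnN : (N : ℝ) ≤ n := by exact_mod_cast hn
    have hn1 : 2 / α ≤ (n : ℝ) := (le_max_left _ _).trans (hN.trans hnN)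
    have hn2 : 2 / c ≤ (n : ℝ) := (le_max_left _ _).trans ((le_max_right _ _).trans (hN.trans hnN))
    have hn3 : (2 : ℝ) ≤ n := (le_max_right _ _).trans ((le_max_right _ _).trans (hN.trans hnN))
    have hn0 : (0 : ℝ) < n := by linarith
    have hn0' : 0 < n := by exact_mod_cast hn0
    have hcn : 2 ≤ c * (n : ℝ) ^ 2 := by
      rw [div_le_iff₀ hc] at hn2
      have h1 : (n : ℝ) * c ≤ c * (n : ℝ) ^ 2 := by
        have : c * (n : ℝ) ^ 2 = (n : ℝ) * c * n := by ring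
        rw [this]
        exact le_mul_of_one_le_right (by positivity) (by linarith)
      linarith
    set ε : ℝ := τ ^ 2 * (1 / 2) ^ (3 * k) / 12 * c ^ (k - 2) with hε
    have hε0 : 0 ≤ ε := by positivity
    have hlow := low_of_sets G hα0 hα1 hc hε0 hτ0 hτ1 hτ2 hn1 hcard hW
    have hT := frm_total G hcard
    set p : ℝ := B G (fun _ => 1) (fun _ => 1) / (n : ℝ) ^ 2 with hp
    have hpn : p * (n : ℝ) ^ 2 = 2 * (⌊c * (n : ℝ) ^ 2⌋₊ : ℝ) := by
      rw [hp, div_mul_cancel₀ _ (by positivity), hT]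
    have hfl := Nat.lt_floor_add_one (c * (n : ℝ) ^ 2)
    have hfl2 := Nat.floor_le (show 0 ≤ c * (n : ℝ) ^ 2 by positivity)
    have hn2' : (0 : ℝ) < (n : ℝ) ^ 2 := by positivity
    have hpc : c ≤ p := by
      have h1 : c * (n : ℝ) ^ 2 ≤ p * (n : ℝ) ^ 2 := by
        rw [hpn]
        linarith
      exact le_of_mul_le_mul_right h1 hn2'
    have hp1 : p ≤ 1 := by
      have h1 : p * (n : ℝ) ^ 2 ≤ 1 * (n : ℝ) ^ 2 := by
        rw [hpn]
        have : c * (n : ℝ) ^ 2 ≤ 1 / 2 * (n : ℝ) ^ 2 := mul_le_mul_of_nonneg_right hc2 hn2'.le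
        linarith
      exact le_of_mul_le_mul_right h1 hn2'
    have hp0 : 0 < p := lt_of_lt_of_le hc hpc
    have hκe : 12 * ε * α ^ 2 * c / τ ^ 2 = (1 / 2) ^ (3 * k) * (α ^ 2 * c ^ (k - 1)) := by
      have e1 : c ^ (k - 1) = c ^ (k - 2) * c := by
        rw [← pow_succ]
        congr 1
        omega
      rw [e1, hε]
      field_simp
    have hκ : 12 * ε * α ^ 2 * c / τ ^ 2 ≤ (1 / 2) ^ (3 * k) * p ^ (k - 1) := by
      rw [hκe]
      apply mul_le_mul_of_nonneg_left _ (by positivity)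
      have h1 : α ^ 2 ≤ 1 := pow_le_one₀ hα0.le hα1.le
      calc α ^ 2 * c ^ (k - 1) ≤ 1 * c ^ (k - 1) :=
            mul_le_mul_of_nonneg_right h1 (by positivity)
        _ = c ^ (k - 1) := one_mul _
        _ ≤ p ^ (k - 1) := pow_le_pow_left₀ hc.le hpc _
    have hfin := cliques_ge G hk hn0' hp0 hp1 hlow hκ
    refine le_trans ?_ hfin
    apply mul_le_mul_of_nonneg_right _ (by positivity)
    apply mul_le_mul_of_nonneg_left _ (by positivity)
    exact pow_le_pow_left₀ hc.le hpc _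

end Pool.Agent.H10.EO
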