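import Pool.Agent.H10.EO.Set3

/-!
# Module Par: Parseval and the quadratic form of the Cayley graph

PROOF. `V = F × F × F`, `N = |V| = q³`. `psi χ u (z + z') = psi χ u z * psi χ u z'`,
`psi χ u z = psi χ z u` (commutativity) and values `1`, `-1`.
`orth`: `∑ u, psi χ u z = N` if `z = 0` and `0` otherwise (if `z.1 ≠ 0` sum over `u.1` first and use
`sum_chi`, and so on).
`parseval`: `∑ u, (∑ z, w z psi χ u z)² = ∑ z z', w z w z' ∑ u, psi χ u (z + z')`, and `z + z' = 0`
iff `z = z'` (characteristic two). So it is `N ∑ w z²`.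
`form_ge`: `N ∑_z ∑_{s ∈ S} w z w (z + s) = ∑_u (∑_{s ∈ S} psi χ u s) (∑_z w z psi χ u z)²`: expand
the right side, `psi χ u s psi χ u z psi χ u z' = psi χ u (s + z + z')`, `orth`, and `s + z + z' = 0`
iff `z' = z + s`. The term `u = 0` is `|S| (∑ w)²` (`eig_zero`), the others are
`≥ - (3 q / 2) (..)²` (`eig`), and so the right side is
`≥ |S| (∑ w)² - (3 q / 2) ∑_u (..)² = |S| (∑ w)² - (3 q / 2) N ∑ w²`. Divide by `N`.
-/

set_option autoImplicit false

namespace Pool.Agent.H10.EO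

open Finset

variable {F : Type} [Field F] [Fintype F] [DecidableEq F] {χ : F → ℝ}

omit [Fintype F] [DecidableEq F] in
private theorem par_psi_add (hχ : Chi χ) (u z z' : F × F × F) :
    psi χ u (z + z') = psi χ u z * psi χ u z' := by
  unfold psi
  rw [← hχ.add]
  congr 1
  simp only [Prod.fst_add, Prod.snd_add]
  ring

private theorem par_psi_zero (hχ : Chi χ) (z : F × F × F) : psi χ 0 z = 1 := by
  unfold psi
  simp only [Prod.fst_zero, Prod.snd_zero, zero_mul, add_zero]
  exact chi_zero hχ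

private theorem par_one (hχ : Chi χ) (z : F) :
    ∑ x : F, χ (x * z) = if z = 0 then (Fintype.card F : ℝ) else 0 := by
  by_cases hz : z = 0
  · rw [if_pos hz, hz]
    simp only [mul_zero, chi_zero hχ]
    simp
  · rw [if_neg hz, ← sum_chi hχ hz]
    refine Finset.sum_congr rfl fun x _ => ?_
    rw [mul_comm]

theorem orth (hχ : Chi χ) (z : F × F × F) :
    ∑ u : F × F × F, psi χ u z = if z = 0 then (Fintype.card F : ℝ) ^ 3 else 0 := by
  have h1 : ∑ u : F × F × F, psi χ u z =
      (∑ x : F, χ (x * z.1)) * ((∑ x : F, χ (x * z.2.1)) * ∑ x : F, χ (x * z.2.2)) := by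
    rw [Fintype.sum_prod_type, Finset.sum_mul]
    refine Finset.sum_congr rfl fun x _ => ?_
    rw [Fintype.sum_prod_type, Finset.sum_mul, Finset.mul_sum]
    refine Finset.sum_congr rfl fun y _ => ?_
    rw [Finset.mul_sum, Finset.mul_sum]
    refine Finset.sum_congr rfl fun t _ => ?_
    unfold psi
    simp only
    rw [hχ.add, hχ.add, mul_assoc]
  rw [h1, par_one hχ, par_one hχ, par_one hχ]
  obtain ⟨a, b, c⟩ := z
  simp only [Prod.mk_eq_zero]
  by_cases ha : a = 0 <;> by_cases hb : b = 0 <;> by_cases hc : c = 0 <;> simp [ha, hb, hc]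
  ring

omit [Fintype F] [DecidableEq F] in
private theorem par_self [CharP F 2] (z : F × F × F) : z + z = 0 := by
  obtain ⟨a, b, c⟩ := z
  simp only [CharTwo.add_self_eq_zero]

omit [Fintype F] [DecidableEq F] in
private theorem par_iff [CharP F 2] (z z' : F × F × F) : z + z' = 0 ↔ z' = z := by
  constructor
  · intro h
    have h1 : z + (z + z') = z := by rw [h, add_zero]
    rw [← add_assoc, par_self, zero_add] at h1
    exact h1
  · rintro rfl
    exact par_self _

theorem parseval (hχ : Chi χ) [CharP F 2] (w : F × F × F → ℝ) :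
    ∑ u : F × F × F, (∑ z, w z * psi χ u z) ^ 2 = (Fintype.card F : ℝ) ^ 3 * ∑ z, w z ^ 2 := by
  have h1 : ∀ u : F × F × F, (∑ z, w z * psi χ u z) ^ 2 =
      ∑ z, ∑ z', w z * w z' * psi χ u (z + z') := by
    intro u
    rw [sq, Finset.sum_mul_sum]
    refine Finset.sum_congr rfl fun z _ => Finset.sum_congr rfl fun z' _ => ?_
    rw [par_psi_add hχ]
    ring
  rw [Finset.sum_congr rfl fun u _ => h1 u, Finset.sum_comm, Finset.mul_sum]
  refine Finset.sum_congr rfl fun z _ => ?_
  rw [Finset.sum_comm]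
  have h2 : ∀ z' : F × F × F, ∑ u : F × F × F, w z * w z' * psi χ u (z + z') =
      if z' = z then (Fintype.card F : ℝ) ^ 3 * w z ^ 2 else 0 := by
    intro z'
    rw [← Finset.mul_sum, orth hχ]
    by_cases h : z' = z
    · rw [if_pos ((par_iff z z').2 h), if_pos h, h]
      ring
    · rw [if_neg (fun h' => h ((par_iff z z').1 h')), if_neg h, mul_zero]
  rw [Finset.sum_congr rfl fun z' _ => h2 z', Finset.sum_ite_eq']
  simp

private theorem par_main (hχ : Chi χ) [CharP F 2] (w : F × F × F → ℝ) :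
    ∑ u : F × F × F, (∑ s ∈ SS χ, psi χ u s) * (∑ z, w z * psi χ u z) ^ 2 =
      (Fintype.card F : ℝ) ^ 3 * ∑ z, ∑ s ∈ SS χ, w z * w (z + s) := by
  have h1 : ∀ u : F × F × F, (∑ s ∈ SS χ, psi χ u s) * (∑ z, w z * psi χ u z) ^ 2 =
      ∑ z, ∑ s ∈ SS χ, ∑ z', w z * w z' * psi χ u (z + s + z') := by
    intro u
    rw [sq, Finset.sum_mul_sum, Finset.sum_mul_sum, Finset.sum_comm]
    refine Finset.sum_congr rfl fun z _ => Finset.sum_congr rfl fun s _ => ?_
    rw [Finset.mul_sum]
    refine Finset.sum_congr rfl fun z' _ => ?_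
    rw [par_psi_add hχ, par_psi_add hχ]
    ring
  rw [Finset.sum_congr rfl fun u _ => h1 u, Finset.sum_comm, Finset.mul_sum]
  refine Finset.sum_congr rfl fun z _ => ?_
  rw [Finset.sum_comm, Finset.mul_sum]
  refine Finset.sum_congr rfl fun s _ => ?_
  rw [Finset.sum_comm]
  have h2 : ∀ z' : F × F × F, ∑ u : F × F × F, w z * w z' * psi χ u (z + s + z') =
      if z' = z + s then (Fintype.card F : ℝ) ^ 3 * (w z * w (z + s)) else 0 := by
    intro z'
    rw [← Finset.mul_sum, orth hχ]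
    by_cases h : z' = z + s
    · rw [if_pos ((par_iff (z + s) z').2 h), if_pos h, h]
      ring
    · rw [if_neg (fun h' => h ((par_iff (z + s) z').1 h')), if_neg h, mul_zero]
  rw [Finset.sum_congr rfl fun z' _ => h2 z', Finset.sum_ite_eq']
  simp

theorem form_ge (hχ : Chi χ) [CharP F 2] (w : F × F × F → ℝ) :
    ((SS χ).card : ℝ) / (Fintype.card F : ℝ) ^ 3 * (∑ z, w z) ^ 2 -
      3 / 2 * (Fintype.card F : ℝ) * ∑ z, w z ^ 2 ≤ ∑ z, ∑ s ∈ SS χ, w z * w (z + s) := by
  have hq : (0 : ℝ) < (Fintype.card F : ℝ) := by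
    exact_mod_cast Fintype.card_pos
  have hN : (0 : ℝ) < (Fintype.card F : ℝ) ^ 3 := by positivity
  have hmain := par_main hχ w
  have hpar := parseval hχ w
  set q : ℝ := (Fintype.card F : ℝ) with hqd
  set X : ℝ := ∑ z, ∑ s ∈ SS χ, w z * w (z + s) with hX
  have h0 : ∀ u : F × F × F, -(3 / 2 * q) * (∑ z, w z * psi χ u z) ^ 2 +
      (if u = 0 then ((SS χ).card : ℝ) * (∑ z, w z) ^ 2 else 0) ≤
      (∑ s ∈ SS χ, psi χ u s) * (∑ z, w z * psi χ u z) ^ 2 := by
    intro u
    by_cases hu : u = 0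
    · rw [if_pos hu, hu, eig_zero hχ]
      have e1 : ∑ z, w z * psi χ 0 z = ∑ z, w z := by
        refine Finset.sum_congr rfl fun z _ => ?_
        rw [par_psi_zero hχ, mul_one]
      rw [e1]
      have h1 : 0 ≤ 3 / 2 * q * (∑ z, w z) ^ 2 := by positivity
      linarith
    · rw [if_neg hu, add_zero]
      exact mul_le_mul_of_nonneg_right (eig hχ u) (sq_nonneg _)
  have h1 := Finset.sum_le_sum fun u (_ : u ∈ (Finset.univ : Finset (F × F × F))) => h0 u
  rw [Finset.sum_add_distrib, ← Finset.mul_sum, hpar, hmain, Finset.sum_ite_eq'] at h1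
  simp only [Finset.mem_univ, if_true] at h1
  have h2 : q ^ 3 * (((SS χ).card : ℝ) / q ^ 3 * (∑ z, w z) ^ 2 - 3 / 2 * q * ∑ z, w z ^ 2) ≤
      q ^ 3 * X := by
    refine le_trans (le_of_eq ?_) h1
    field_simp
    ring
  exact le_of_mul_le_mul_left h2 hN

end Pool.Agent.H10.EO
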