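import Pool.Agent.H10.EO.Chr

/-!
# Module Set3: the connection set and its eigenvalues

`S = {(x y, x y², x y³) : χ x = -1, y ≠ 0}` in `F × F × F`.

PROOF. `pt_inj`: from `x y = x' y'`, `x y² = x' y'²` with `x, y, x', y' ≠ 0` (`χ 0 = 1`, so
`x ≠ 0`): `y = y'`, then `x = x'`. `card_S`: `|S| = (q / 2) (q - 1)`.
`eig`: `∑_{s ∈ S} psi χ u s = ∑_{y ≠ 0} ∑_{χ x = -1} χ (x g(y))`, `g(y) = u₁ y + u₂ y² + u₃ y³`,
`= (q / 2) (#{y ≠ 0 : g(y) = 0} - #{y ≠ 0 : g(y) = 1})` by `sum_neg`; the polynomial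
`u₃ X³ + u₂ X² + u₁ X - 1` is not zero (constant term) and has degree at most `3`, so at most `3`
roots. Hence `≥ - 3 q / 2`. For `u = 0`: every `psi` is `1`, the sum is `|S|`.
`S_free`: let `s = x (y,y²,y³)`, `s' = x' (y',..)`, `s'' = x'' (y'',..)` in `S` with
`s + s' = s''`, that is `s + s' + s'' = 0` (characteristic two). If `y, y', y''` are pairwise
different, the Vandermonde system `x y + x' y' + x'' y'' = 0` (and with squares and cubes) gives
`x y = 0`: multiply out: `(sum of cubes) - (y' + y'') (sum of squares) + y' y'' (sum) =`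
`x y (y - y') (y - y'')`; contradiction. If `y = y' ≠ y''`: then with `X = x + x'`:
`X y + x'' y'' = 0`, `X y² + x'' y''² = 0`, so `x'' y'' (y'' - y) = 0`, contradiction; the other
cases of two equal ones in the same way. If all are equal then `x + x' + x'' = 0`, but
`χ (x + x' + x'') = -1`, `χ 0 = 1`. `0 ∉ S` since `x y ≠ 0`.
-/

set_option autoImplicit false

namespace Pool.Agent.H10.EO

open Finset

variable {F : Type} [Field F] [Fintype F] [DecidableEq F] {χ : F → ℝ}

/-- the point `x (y, y², y³)` -/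
def pt (x y : F) : F × F × F := (x * y, x * y ^ 2, x * y ^ 3)

/-- the connection set -/
noncomputable def SS (χ : F → ℝ) : Finset (F × F × F) :=
  ((neg1 χ) ×ˢ (Finset.univ.erase (0 : F))).image (fun z => pt z.1 z.2)

/-- the characters of `F × F × F` -/
def psi (χ : F → ℝ) (u z : F × F × F) : ℝ := χ (u.1 * z.1 + u.2.1 * z.2.1 + u.2.2 * z.2.2)

private theorem set3_mem (hχ : Chi χ) {x : F} (hx : x ∈ neg1 χ) : χ x = -1 ∧ x ≠ 0 := by
  have h1 : χ x = -1 := by
    unfold neg1 at hx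
    classical
    simpa using hx
  refine ⟨h1, ?_⟩
  rintro rfl
  rw [chi_zero hχ] at h1
  norm_num at h1

private theorem set3_inj (hχ : Chi χ) :
    Set.InjOn (fun z : F × F => pt z.1 z.2)
      (((neg1 χ) ×ˢ (Finset.univ.erase (0 : F)) : Finset (F × F)) : Set (F × F)) := by
  rintro ⟨x, y⟩ h ⟨x', y'⟩ h' he
  rw [Finset.mem_coe, Finset.mem_product] at h h'
  simp only [Finset.mem_erase, Finset.mem_univ, and_true] at h h'
  have hx := (set3_mem hχ h.1).2
  unfold pt at he
  simp only [Prod.mk.injEq] at he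
  obtain ⟨e1, e2, -⟩ := he
  have h1 : x * y * (y - y') = 0 := by linear_combination e2 - y' * e1
  have h2 : y = y' := by
    rcases mul_eq_zero.1 h1 with h3 | h3
    · exact absurd h3 (mul_ne_zero hx h.2)
    · exact sub_eq_zero.1 h3
  subst h2
  have h3 : x = x' := mul_right_cancel₀ h.2 e1
  rw [h3]

theorem card_S (hχ : Chi χ) :
    ((SS χ).card : ℝ) = (Fintype.card F : ℝ) * ((Fintype.card F : ℝ) - 1) / 2 := by
  unfold SS
  rw [Finset.card_image_of_injOn (set3_inj hχ), Finset.card_product,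
    Finset.card_erase_of_mem (Finset.mem_univ _), Finset.card_univ]
  have h1 : 1 ≤ Fintype.card F := Fintype.card_pos
  push_cast [Nat.cast_sub h1]
  rw [card_neg hχ]
  ring

theorem eig_zero (hχ : Chi χ) : ∑ s ∈ SS χ, psi χ 0 s = ((SS χ).card : ℝ) := by
  have h1 : ∀ s ∈ SS χ, psi χ 0 s = 1 := by
    intro s _
    unfold psi
    simp only [Prod.fst_zero, Prod.snd_zero, zero_mul, add_zero]
    exact chi_zero hχ
  rw [Finset.sum_congr rfl h1]
  simp

private theorem set3_roots (u : F × F × F) :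
    ((Finset.univ.filter fun y : F => u.1 * y + u.2.1 * y ^ 2 + u.2.2 * y ^ 3 = 1).card : ℝ) ≤
      3 := by
  classical
  set P : Polynomial F := Polynomial.C u.2.2 * Polynomial.X ^ 3 +
    Polynomial.C u.2.1 * Polynomial.X ^ 2 + Polynomial.C u.1 * Polynomial.X +
    Polynomial.C (-1) with hP
  have hd : P.natDegree ≤ 3 := Polynomial.natDegree_cubic_le
  have hne : P ≠ 0 := by
    intro h
    have h1 : P.eval 0 = 0 := by rw [h]; simp
    rw [hP] at h1
    simp at h1
  have hsub : (Finset.univ.filter fun y : F =>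
      u.1 * y + u.2.1 * y ^ 2 + u.2.2 * y ^ 3 = 1) ⊆ P.roots.toFinset := by
    intro y hy
    rw [Finset.mem_filter] at hy
    rw [Multiset.mem_toFinset, Polynomial.mem_roots hne, Polynomial.IsRoot.def, hP]
    simp only [Polynomial.eval_add, Polynomial.eval_mul, Polynomial.eval_C, Polynomial.eval_pow,
      Polynomial.eval_X]
    linear_combination hy.2
  have h1 := Finset.card_le_card hsub
  have h2 := Multiset.toFinset_card_le P.roots
  have h3 := Polynomial.card_roots' P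
  exact_mod_cast h1.trans (h2.trans (h3.trans hd))

theorem eig (hχ : Chi χ) [CharP F 2] (u : F × F × F) :
    -(3 / 2 * (Fintype.card F : ℝ)) ≤ ∑ s ∈ SS χ, psi χ u s := by
  have h1 : ∑ s ∈ SS χ, psi χ u s = ∑ y ∈ Finset.univ.erase (0 : F),
      (Fintype.card F : ℝ) / 2 *
        ((if u.1 * y + u.2.1 * y ^ 2 + u.2.2 * y ^ 3 = 0 then (1 : ℝ) else 0) -
          (if u.1 * y + u.2.1 * y ^ 2 + u.2.2 * y ^ 3 = 1 then (1 : ℝ) else 0)) := by
    unfold SS
    rw [Finset.sum_image (set3_inj hχ), Finset.sum_product_right]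
    refine Finset.sum_congr rfl fun y _ => ?_
    rw [← sum_neg hχ]
    refine Finset.sum_congr rfl fun x _ => ?_
    unfold psi pt
    simp only
    congr 1
    ring
  have hq : (0 : ℝ) ≤ (Fintype.card F : ℝ) / 2 := by positivity
  have h2 : ∀ y ∈ Finset.univ.erase (0 : F),
      -((Fintype.card F : ℝ) / 2 *
        (if u.1 * y + u.2.1 * y ^ 2 + u.2.2 * y ^ 3 = 1 then (1 : ℝ) else 0)) ≤
      (Fintype.card F : ℝ) / 2 *
        ((if u.1 * y + u.2.1 * y ^ 2 + u.2.2 * y ^ 3 = 0 then (1 : ℝ) else 0) -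
          (if u.1 * y + u.2.1 * y ^ 2 + u.2.2 * y ^ 3 = 1 then (1 : ℝ) else 0)) := by
    intro y _
    have h3 : (0 : ℝ) ≤ (if u.1 * y + u.2.1 * y ^ 2 + u.2.2 * y ^ 3 = 0 then (1 : ℝ) else 0) := by
      split_ifs <;> norm_num
    have h4 := mul_nonneg hq h3
    linarith
  have h3 := Finset.sum_le_sum h2
  rw [← h1, Finset.sum_neg_distrib, ← Finset.mul_sum] at h3
  have h4 : ∑ y ∈ Finset.univ.erase (0 : F),
      (if u.1 * y + u.2.1 * y ^ 2 + u.2.2 * y ^ 3 = 1 then (1 : ℝ) else 0) ≤ 3 := by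
    refine le_trans (Finset.sum_le_sum_of_subset_of_nonneg (Finset.subset_univ _) ?_) ?_
    · intro y _ _
      split_ifs <;> norm_num
    · rw [Finset.sum_boole]
      exact set3_roots u
  have h5 := mul_le_mul_of_nonneg_left h4 hq
  linarith

private theorem set3_rep (hχ : Chi χ) {s : F × F × F} (hs : s ∈ SS χ) :
    ∃ x y : F, χ x = -1 ∧ x ≠ 0 ∧ y ≠ 0 ∧ s = pt x y := by
  unfold SS at hs
  rw [Finset.mem_image] at hs
  obtain ⟨⟨x, y⟩, h1, h2⟩ := hs
  rw [Finset.mem_product] at h1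
  simp only [Finset.mem_erase, Finset.mem_univ, and_true] at h1
  exact ⟨x, y, (set3_mem hχ h1.1).1, (set3_mem hχ h1.1).2, h1.2, h2.symm⟩

theorem S_zero (hχ : Chi χ) : (0 : F × F × F) ∉ SS χ := by
  intro h
  obtain ⟨x, y, -, hx, hy, h1⟩ := set3_rep hχ h
  have h2 : (0 : F) = x * y := congrArg Prod.fst h1
  exact mul_ne_zero hx hy h2.symm

theorem S_free (hχ : Chi χ) [CharP F 2] {s t : F × F × F} (hs : s ∈ SS χ) (ht : t ∈ SS χ) :
    s + t ∉ SS χ := by
  intro hst
  obtain ⟨x, y, hx, hx0, hy, rfl⟩ := set3_rep hχ hs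
  obtain ⟨x', y', hx', hx0', hy', rfl⟩ := set3_rep hχ ht
  obtain ⟨x'', y'', hx'', hx0'', hy'', he⟩ := set3_rep hχ hst
  unfold pt at he
  simp only [Prod.mk_add_mk, Prod.mk.injEq] at he
  obtain ⟨e1, e2, e3⟩ := he
  have h1 : x * y * ((y - y') * (y - y'')) = 0 := by
    linear_combination e3 - (y' + y'') * e2 + y' * y'' * e1
  have h2 : x' * y' * ((y' - y) * (y' - y'')) = 0 := by
    linear_combination e3 - (y + y'') * e2 + y * y'' * e1
  have h3 : x'' * y'' * ((y'' - y) * (y'' - y')) = 0 := by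
    linear_combination -e3 + (y + y') * e2 - y * y' * e1
  have g1 := (mul_eq_zero.1 h1).resolve_left (mul_ne_zero hx0 hy)
  have g2 := (mul_eq_zero.1 h2).resolve_left (mul_ne_zero hx0' hy')
  have g3 := (mul_eq_zero.1 h3).resolve_left (mul_ne_zero hx0'' hy'')
  have k1 := mul_eq_zero.1 g1
  have k2 := mul_eq_zero.1 g2
  have k3 := mul_eq_zero.1 g3
  rw [sub_eq_zero, sub_eq_zero] at k1 k2 k3
  have m1 : y = y' ∧ y = y'' := by
    rcases k1 with a | a
    · rcases k3 with b | b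
      · exact ⟨a, b.symm⟩
      · exact ⟨a, a.trans b.symm⟩
    · rcases k2 with b | b
      · exact ⟨b.symm, a⟩
      · exact ⟨a.trans b.symm, a⟩
  obtain ⟨m1, m2⟩ := m1
  subst m1
  subst m2
  have h4 : x + x' = x'' := by
    refine mul_right_cancel₀ hy ?_
    linear_combination e1
  have h5 := hχ.add x x'
  rw [h4, hx, hx', hx''] at h5
  norm_num at h5

end Pool.Agent.H10.EO
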