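import Pool.Agent.H10.EO.Defs
import Pool.Agent.H10.EO.Dsc

/-!
# Module Spa: a subgraph with a prescribed number of edges and evenly thinned sets

PROOF. `Ω = G₀.edgeFinset`, the family of the sets `A_W = {e ∈ Ω | all ends in W}`, `W ⊆ Fin n`
(image of the powerset, so at most `2^n` sets; `A_univ = Ω`), `ρ = M / |Ω| ∈ [0, 1]` (if
`Ω = ∅` then `M = 0` and `G = G₀` works), `t = 1 / √n`, `n ≥ 1`. `|Ω| ≤ n² / 2`. `discrepancy` gives
`S ⊆ Ω` with `||S ∩ A_W| - ρ |A_W|| ≤ √n ((n + 1) log 2 + n / 2) ≤ 2 n √n` for all `W`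
(`log 2 < 0.7`, `n + 1 ≤ 2 n`; `.7 · 2 + .5 = 1.9`). In particular `||S| - M| ≤ 2 n √n`.
If `|S| > M` remove `|S| - M` elements, if `|S| < M` add `M - |S|` elements of `Ω \ S`; let `S'` be
the result, `|S'| = M`, `G` = the graph with edge set `S'` (`SimpleGraph.fromEdgeSet`, `S' ⊆ Ω` has
no loops). Then `ins G W = |S' ∩ A_W| ≥ |S ∩ A_W| - 2 n √n ≥ ρ |A_W| - 4 n √n`, `|A_W| = ins G₀ W`,
`|Ω| = ins G₀ univ`.
-/

set_option autoImplicit false

namespace Pool.Agent.H10.EO

open Finset Pool.Agent.H99.HalfDense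

private theorem spa_num {n : ℕ} (hn : 1 ≤ n) {F w : ℝ} (hF0 : 0 < F) (hF : F ≤ 2 ^ n)
    (hw : w ≤ (n : ℝ) ^ 2 / 2) :
    (Real.log (2 * F) + (1 / Real.sqrt n) ^ 2 * w) / (1 / Real.sqrt n) ≤
      2 * (n : ℝ) * Real.sqrt n := by
  have hn1 : (1 : ℝ) ≤ n := by exact_mod_cast hn
  have hn0 : (0 : ℝ) < n := by linarith
  have hs : 0 < Real.sqrt n := Real.sqrt_pos.2 hn0
  have hss : Real.sqrt n ^ 2 = n := Real.sq_sqrt hn0.le
  have h1 : Real.log (2 * F) ≤ ((n : ℝ) + 1) * Real.log 2 := by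
    have h2 : 2 * F ≤ 2 ^ (n + 1) := by
      rw [pow_succ]
      linarith
    have h3 := Real.log_le_log (by positivity) h2
    rw [Real.log_pow] at h3
    push_cast at h3
    exact h3
  have h2 : Real.log 2 < 0.6931471808 := Real.log_two_lt_d9
  have h3 : (1 / Real.sqrt n) ^ 2 * w ≤ (n : ℝ) / 2 := by
    rw [one_div, inv_pow, hss, inv_mul_le_iff₀ hn0]
    calc w ≤ (n : ℝ) ^ 2 / 2 := hw
      _ = (n : ℝ) * ((n : ℝ) / 2) := by ring
  have h4 : Real.log (2 * F) + (1 / Real.sqrt n) ^ 2 * w ≤ 2 * (n : ℝ) := by nlinarith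
  rw [div_le_iff₀ (by positivity)]
  have h5 : 2 * (n : ℝ) * Real.sqrt n * (1 / Real.sqrt n) = 2 * (n : ℝ) := by
    field_simp
  rw [h5]
  exact h4

theorem sparsify {n : ℕ} (hn : 1 ≤ n) (G₀ : SimpleGraph (Fin n)) (M : ℕ)
    (hM : (M : ℝ) ≤ ins G₀ Finset.univ) :
    ∃ G : SimpleGraph (Fin n), G ≤ G₀ ∧ G.edgeSet.ncard = M ∧
      ∀ W : Finset (Fin n), (M : ℝ) * ins G₀ W ≤
        (ins G W + 4 * (n : ℝ) * Real.sqrt n) * ins G₀ Finset.univ := by
  classical
  have hn1 : (1 : ℝ) ≤ n := by exact_mod_cast hn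
  have hn0 : (0 : ℝ) < n := by linarith
  set Om := G₀.edgeFinset with hOm
  let AW : Finset (Fin n) → Finset (Sym2 (Fin n)) := fun W => Om.filter (fun e => ∀ v ∈ e, v ∈ W)
  have hins : ∀ W, ins G₀ W = ((AW W).card : ℝ) := by
    intro W
    unfold ins
    congr 1
    rw [← Set.ncard_coe_finset]
    congr 1
    ext e
    simp [AW, hOm]
  have hAU : AW Finset.univ = Om := by
    ext e
    simp [AW]
  have hU : ins G₀ Finset.univ = (Om.card : ℝ) := by rw [hins, hAU]
  have hcard : G₀.edgeSet.ncard = Om.card := by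
    rw [← Set.ncard_coe_finset, hOm, SimpleGraph.coe_edgeFinset]
  rcases Nat.eq_zero_or_pos Om.card with h0 | hpos
  · have hM0 : M = 0 := by
      rw [hU, h0] at hM
      have : (M : ℝ) ≤ 0 := by simpa using hM
      exact_mod_cast le_antisymm this (Nat.cast_nonneg M)
    refine ⟨G₀, le_refl _, by rw [hcard, h0, hM0], fun W => ?_⟩
    rw [hU, h0, hM0]
    simp
  · have hposR : (0 : ℝ) < Om.card := by exact_mod_cast hpos
    have hMle : M ≤ Om.card := by
      rw [hU] at hM
      exact_mod_cast hM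
    let Fam : Finset (Finset (Sym2 (Fin n))) := Finset.univ.image AW
    have hFam : ∀ W, AW W ∈ Fam := fun W => Finset.mem_image_of_mem _ (Finset.mem_univ _)
    have hFc : (Fam.card : ℝ) ≤ 2 ^ n := by
      have h1 : Fam.card ≤ 2 ^ n := by
        refine Finset.card_image_le.trans ?_
        rw [Finset.card_univ, Fintype.card_finset, Fintype.card_fin]
      exact_mod_cast h1
    have hF0 : (0 : ℝ) < Fam.card := by
      have : 0 < Fam.card := Finset.card_pos.2 ⟨_, hFam ∅⟩
      exact_mod_cast this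
    have hOn : (Om.card : ℝ) ≤ (n : ℝ) ^ 2 / 2 := by
      have h1 := G₀.card_edgeFinset_le_card_choose_two
      rw [Fintype.card_fin] at h1
      have h2 : (Om.card : ℝ) ≤ (n.choose 2 : ℝ) := by exact_mod_cast h1
      rw [Nat.cast_choose_two] at h2
      nlinarith
    have hs : 0 < Real.sqrt n := Real.sqrt_pos.2 hn0
    have hs1 : 1 ≤ Real.sqrt n := Real.one_le_sqrt.2 hn1
    obtain ⟨S, hS, hD⟩ := discrepancy Om Fam (ρ := (M : ℝ) / Om.card) (t := 1 / Real.sqrt n)
      (by positivity) ((div_le_one hposR).2 (by exact_mod_cast hMle)) (by positivity)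
      ((div_le_one hs).2 hs1)
    have hE := spa_num hn hF0 hFc hOn
    set E := 2 * (n : ℝ) * Real.sqrt n with hEdef
    have hDW : ∀ W, |((S ∩ AW W).card : ℝ) - (M : ℝ) / Om.card * ((AW W).card : ℝ)| ≤ E :=
      fun W => (hD _ (hFam W) (Finset.filter_subset _ _)).trans hE
    have hSM : |(S.card : ℝ) - M| ≤ E := by
      have h1 := hDW Finset.univ
      rw [hAU, Finset.inter_eq_left.2 hS, div_mul_cancel₀ _ hposR.ne'] at h1
      exact h1
    have hE0 : 0 ≤ E := by positivity
    obtain ⟨S', hS'Om, hS'c, hS'A⟩ : ∃ S' ⊆ Om, S'.card = M ∧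
        ∀ A : Finset (Sym2 (Fin n)), ((S ∩ A).card : ℝ) - E ≤ ((S' ∩ A).card : ℝ) := by
      rcases le_total M S.card with hle | hle
      · obtain ⟨S', -, h2, h3⟩ := Finset.exists_subsuperset_card_eq (Finset.empty_subset S)
          (by simp) hle
        refine ⟨S', h2.trans hS, h3, fun A => ?_⟩
        have h4 : (S ∩ A).card ≤ (S' ∩ A).card + (S \ S').card := by
          have h5 : S ∩ A ⊆ (S' ∩ A) ∪ (S \ S') := by
            intro e he
            rw [Finset.mem_inter] at he
            rw [Finset.mem_union, Finset.mem_inter, Finset.mem_sdiff]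
            by_cases h6 : e ∈ S'
            · exact Or.inl ⟨h6, he.2⟩
            · exact Or.inr ⟨he.1, h6⟩
          exact (Finset.card_le_card h5).trans (Finset.card_union_le _ _)
        have h6 : (S \ S').card + M = S.card := by
          rw [← h3, Finset.card_sdiff_add_card_eq_card h2]
        have h7 : ((S ∩ A).card : ℝ) ≤ (S' ∩ A).card + (S \ S').card := by exact_mod_cast h4
        have h8 : ((S \ S').card : ℝ) + M = S.card := by exact_mod_cast h6
        have h9 := (abs_le.1 hSM).2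
        linarith
      · obtain ⟨S', h1, h2, h3⟩ := Finset.exists_subsuperset_card_eq hS hle hMle
        refine ⟨S', h2, h3, fun A => ?_⟩
        have h4 : (S ∩ A).card ≤ (S' ∩ A).card :=
          Finset.card_le_card (Finset.inter_subset_inter_right h1)
        have h5 : ((S ∩ A).card : ℝ) ≤ (S' ∩ A).card := by exact_mod_cast h4
        linarith
    have hnd : ∀ e ∈ S', ¬ e.IsDiag := by
      intro e he
      have h1 := hS'Om he
      rw [hOm, SimpleGraph.mem_edgeFinset] at h1
      exact G₀.not_isDiag_of_mem_edgeSet h1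
    let G : SimpleGraph (Fin n) := SimpleGraph.fromEdgeSet (S' : Set (Sym2 (Fin n)))
    have hGe : G.edgeSet = (S' : Set (Sym2 (Fin n))) := by
      show (SimpleGraph.fromEdgeSet (S' : Set (Sym2 (Fin n)))).edgeSet = _
      rw [SimpleGraph.edgeSet_fromEdgeSet]
      ext e
      simp only [Set.mem_sdiff, Finset.mem_coe]
      constructor
      · exact fun h => h.1
      · exact fun h => ⟨h, hnd e h⟩
    refine ⟨G, ?_, ?_, fun W => ?_⟩
    · rw [← SimpleGraph.edgeSet_subset_edgeSet, hGe]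
      intro e he
      have h1 := hS'Om he
      rwa [hOm, SimpleGraph.mem_edgeFinset] at h1
    · rw [hGe, Set.ncard_coe_finset, hS'c]
    · have hinsG : ins G W = ((S' ∩ AW W).card : ℝ) := by
        unfold ins
        congr 1
        rw [← Set.ncard_coe_finset, hGe]
        congr 1
        ext e
        simp only [Set.mem_ofPred_eq, Finset.mem_coe, Finset.coe_inter, Set.mem_inter_iff, AW,
          Finset.mem_filter]
        constructor
        · rintro ⟨h1, h2⟩
          exact ⟨h1, hS'Om h1, h2⟩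
        · rintro ⟨h1, -, h2⟩
          exact ⟨h1, h2⟩
      rw [hinsG, hins W, hU]
      have h1 := hS'A (AW W)
      have h2 := (abs_le.1 (hDW W)).1
      have h3 : (M : ℝ) / Om.card * ((AW W).card : ℝ) ≤
          ((S' ∩ AW W).card : ℝ) + 4 * (n : ℝ) * Real.sqrt n := by
        have : 4 * (n : ℝ) * Real.sqrt n = E + E := by rw [hEdef]; ring
        linarith
      have h4 := mul_le_mul_of_nonneg_right h3 hposR.le
      have h5 : (M : ℝ) / Om.card * ((AW W).card : ℝ) * Om.card = M * (AW W).card := by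
        field_simp
      linarith

end Pool.Agent.H10.EO
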