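import Pool.Agent.H10.EO.Par
import Pool.Agent.H10.EO.Blw
import Pool.Agent.H10.EO.Spa

/-!
# Module Two: the second half

PROOF. `base`: for `h ≥ 1`, `q = 2^h`, `F = GaloisField 2 h` (`card = 2^h`), `χ` from `exists_chi`,
`U = F × F × F`, `R z z' ↔ z + z' ∈ SS χ` (characteristic two: `z - z' = z + z'`), symmetric,
irreflexive (`z + z = 0 ∉ SS χ`), triangle-free (`(x + y) + (y + z) = x + z`, `S_free`). With
`D = |S| / q³ = (q - 1) / (2 q²)` and `L = 3 q / 2`: `form_ge` after the substitution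
`s = z + z'`; the number of ordered pairs is `q³ |S| = D q⁶`. `blow` with `n`.
`half_two`. Let `0 < c ≤ 1/1024`. Choose `h` with `2 c ≤ (q-1)/(4 q²)` and `1/q < 32 c`, `q = 2^h ≥ 8`:
the largest `h` with `2 c ≤ (2^h - 1)/(4 · 4^h)` (true for `h = 3`: `7/256 ≥ 2/1024`; false for large
`h`); then `2 c > (2^(h+1) - 1)/(4 · 4^(h+1)) ≥ 1 / (16 · 2^h)`. Write `e = (q-1)/(4 q²)` (half of
`D`). For `G₀` = blow-up and `W`, with `|W| ≤ n` (multiply by `q³`-denominators out):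
`ins G₀ W ≥ e |W|² - (3/(4 q²)) n² - (3 q/4) n`, `ins G₀ univ ≤ e (n + q³)²`, and
`ins G₀ univ ≥ (e - 3/(4 q²)) n² - (3 q / 4) n ≥ (4/7) e n² - (3 q/4) n ≥ (8/7) c n² - (3 q/4) n`
`≥ c n² ≥ M := ⌊c n²⌋` for large `n` (`q ≥ 8` gives `3/(4 q²) ≤ (3/7) e`). `sparsify` gives `G ≤ G₀`
(so triangle-free) with `M` edges and `ins G W ≥ ρ ins G₀ W - 4 n √n`, `ρ = M / ins G₀ univ ≤ 1`,
`ρ e ≥ (c n² - 1)/(n + q³)² ≥ c (1 - 2 q³/n) - 1/n²`, hence
`ins G W ≥ c |W|² - 2 c q³ n - 1 - (3/(4 q²)) n² - (3 q/4) n - 4 n √n`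
`≥ c |W|² - 768 c² n² - o(n²) ≥ c |W|² - 1024 c² n²` for `n` large in terms of `c`
(`3/(4 q²) < 768 c²`).
-/

set_option autoImplicit false

namespace Pool.Agent.H10.EO

open Finset Pool.Agent.H99.HalfDense

private theorem two_self {F : Type} [Field F] [CharP F 2] (a : F × F × F) : a + a = 0 :=
  Prod.ext (CharTwo.add_self_eq_zero _)
    (Prod.ext (CharTwo.add_self_eq_zero _) (CharTwo.add_self_eq_zero _))

private theorem two_sum {F : Type} [Field F] [Fintype F] [DecidableEq F] [CharP F 2]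
    (S : Finset (F × F × F)) (w : F × F × F → ℝ) (z : F × F × F) :
    ∑ s ∈ S, w z * w (z + s) = ∑ z', (if z + z' ∈ S then w z * w z' else 0) := by
  have hzz : ∀ a b : F × F × F, a + (a + b) = b := by
    intro a b
    rw [← add_assoc]
    have : a + a = 0 := two_self a
    rw [this, zero_add]
  rw [← Finset.sum_filter]
  refine Finset.sum_bij' (fun s _ => z + s) (fun z' _ => z + z') ?_ ?_ ?_ ?_ ?_
  · intro s hs
    rw [Finset.mem_filter]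
    exact ⟨Finset.mem_univ _, by rw [hzz]; exact hs⟩
  · intro z' hz'
    exact (Finset.mem_filter.1 hz').2
  · intro s _
    exact hzz z s
  · intro z' _
    exact hzz z z'
  · intro s _
    rfl

private theorem two_base {F : Type} [Field F] [Fintype F] [DecidableEq F] [CharP F 2] {χ : F → ℝ}
    (hχ : Chi χ) (n : ℕ) :
    ∃ G : SimpleGraph (Fin n), G.CliqueFree 3 ∧
      (∀ W : Finset (Fin n), ((Fintype.card F : ℝ) - 1) / (4 * (Fintype.card F : ℝ) ^ 2) *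
        (W.card : ℝ) ^ 2 -
        3 / 4 * (Fintype.card F : ℝ) * (W.card : ℝ) * ((n : ℝ) / (Fintype.card F : ℝ) ^ 3 + 1) ≤
          ins G W) ∧
      ins G Finset.univ ≤ ((Fintype.card F : ℝ) - 1) / (4 * (Fintype.card F : ℝ) ^ 2) *
        ((n : ℝ) + (Fintype.card F : ℝ) ^ 3) ^ 2 := by
  classical
  have hq : (0 : ℝ) < (Fintype.card F : ℝ) := by exact_mod_cast Fintype.card_pos
  have hq1 : (1 : ℝ) ≤ (Fintype.card F : ℝ) := by
    exact_mod_cast Nat.succ_le_of_lt (Fintype.card_pos (α := F))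
  have hU : (Fintype.card (F × F × F) : ℝ) = (Fintype.card F : ℝ) ^ 3 := by
    rw [Fintype.card_prod, Fintype.card_prod]
    push_cast
    ring
  have hS := card_S hχ
  have hD : ((SS χ).card : ℝ) / (Fintype.card F : ℝ) ^ 3 =
      ((Fintype.card F : ℝ) - 1) / (2 * (Fintype.card F : ℝ) ^ 2) := by
    rw [hS]
    field_simp
  have hadd : ∀ a : F × F × F, a + a = 0 := two_self
  have hcard : ((Finset.univ.filter (fun z : (F × F × F) × (F × F × F) => z.1 + z.2 ∈ SS χ)).card : ℝ) =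
      ((SS χ).card : ℝ) / (Fintype.card F : ℝ) ^ 3 * (Fintype.card (F × F × F) : ℝ) ^ 2 := by
    rw [Finset.card_filter]
    push_cast
    rw [Fintype.sum_prod_type]
    have h1 : ∀ z : F × F × F, ∑ z' : F × F × F, (if (z, z').1 + (z, z').2 ∈ SS χ then (1 : ℝ) else 0) =
        ((SS χ).card : ℝ) := by
      intro z
      have := two_sum (SS χ) (fun _ => (1 : ℝ)) z
      simp only [mul_one, Finset.sum_const, nsmul_eq_mul] at this
      rw [this]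
    rw [Finset.sum_congr rfl fun z _ => h1 z, Finset.sum_const, Finset.card_univ, nsmul_eq_mul, hU]
    field_simp
  obtain ⟨G, hG1, hG2, hG3⟩ := blow (U := F × F × F) (fun z z' => z + z' ∈ SS χ)
    (fun x y h => by
      rw [add_comm]
      exact h)
    (fun x h => S_zero hχ (by
      have : x + x ∈ SS χ := h
      rwa [hadd] at this))
    (fun x y z h1 h2 h3 => by
      have h4 : (x + y) + (y + z) ∉ SS χ := S_free hχ h1 h2
      apply h4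
      have : (x + y) + (y + z) = x + z := by
        calc (x + y) + (y + z) = x + (y + y) + z := by abel
          _ = x + z := by rw [hadd, add_zero]
      rw [this]
      exact h3)
    (D := ((SS χ).card : ℝ) / (Fintype.card F : ℝ) ^ 3) (L := 3 / 2 * (Fintype.card F : ℝ))
    (by positivity) (by positivity)
    (fun w => by
      refine (form_ge hχ w).trans (le_of_eq ?_)
      exact Finset.sum_congr rfl fun z _ => two_sum (SS χ) w z)
    hcard n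
  rw [hU, hD] at hG2 hG3
  refine ⟨G, hG1, fun W => ?_, ?_⟩
  · have h1 := hG2 W
    have e1 : ((Fintype.card F : ℝ) - 1) / (4 * (Fintype.card F : ℝ) ^ 2) * (W.card : ℝ) ^ 2 -
        3 / 4 * (Fintype.card F : ℝ) * (W.card : ℝ) * ((n : ℝ) / (Fintype.card F : ℝ) ^ 3 + 1) =
        (((Fintype.card F : ℝ) - 1) / (2 * (Fintype.card F : ℝ) ^ 2) * (W.card : ℝ) ^ 2 -
        3 / 2 * (Fintype.card F : ℝ) * (W.card : ℝ) * ((n : ℝ) / (Fintype.card F : ℝ) ^ 3 + 1)) / 2 := by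
      field_simp
      ring
    rw [e1]
    linarith
  · have e1 : ((Fintype.card F : ℝ) - 1) / (4 * (Fintype.card F : ℝ) ^ 2) *
        ((n : ℝ) + (Fintype.card F : ℝ) ^ 3) ^ 2 =
        (((Fintype.card F : ℝ) - 1) / (2 * (Fintype.card F : ℝ) ^ 2) *
        ((n : ℝ) + (Fintype.card F : ℝ) ^ 3) ^ 2) / 2 := by
      field_simp
      ring
    rw [e1]
    linarith

theorem base (h : ℕ) (hh : h ≠ 0) (n : ℕ) :
    ∃ G : SimpleGraph (Fin n), G.CliqueFree 3 ∧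
      (∀ W : Finset (Fin n), ((2 : ℝ) ^ h - 1) / (4 * (2 ^ h) ^ 2) * (W.card : ℝ) ^ 2 -
        3 / 4 * 2 ^ h * (W.card : ℝ) * ((n : ℝ) / (2 ^ h) ^ 3 + 1) ≤ ins G W) ∧
      ins G Finset.univ ≤ ((2 : ℝ) ^ h - 1) / (4 * (2 ^ h) ^ 2) * ((n : ℝ) + (2 ^ h) ^ 3) ^ 2 := by
  classical
  obtain ⟨χ, hχ⟩ := exists_chi h hh
  have : Fintype (GaloisField 2 h) := Fintype.ofFinite _
  have hc : (Fintype.card (GaloisField 2 h) : ℝ) = 2 ^ h := by
    have h1 := GaloisField.card 2 h hh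
    rw [Nat.card_eq_fintype_card] at h1
    rw [h1]
    push_cast
    rfl
  have h2 := two_base hχ n
  rw [hc] at h2
  exact h2

private theorem two_large (c : ℝ) (hc : 0 < c) :
    ∃ h : ℕ, 3 ≤ h ∧ ¬ 2 * c ≤ ((2 : ℝ) ^ h - 1) / (4 * (2 ^ h) ^ 2) := by
  obtain ⟨m, hm⟩ := pow_unbounded_of_one_lt (1 / c) (by norm_num : (1 : ℝ) < 2)
  refine ⟨m + 3, by omega, ?_⟩
  push Not
  have hq : (2 : ℝ) ^ m ≤ 2 ^ (m + 3) := pow_le_pow_right₀ (by norm_num) (by omega)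
  set q : ℝ := 2 ^ (m + 3) with hqd
  have hq0 : 0 < q := by positivity
  have h1 : 1 / c < q := hm.trans_le hq
  rw [div_lt_iff₀ hc] at h1
  rw [div_lt_iff₀ (by positivity)]
  nlinarith

theorem exists_h {c : ℝ} (hc0 : 0 < c) (hc1 : c ≤ 1 / 1024) :
    ∃ h : ℕ, 3 ≤ h ∧ 2 * c ≤ ((2 : ℝ) ^ h - 1) / (4 * (2 ^ h) ^ 2) ∧ 1 / (2 : ℝ) ^ h < 32 * c := by
  by_contra hcon
  push Not at hcon
  have key : ∀ h : ℕ, 3 ≤ h → 2 * c ≤ ((2 : ℝ) ^ h - 1) / (4 * (2 ^ h) ^ 2) := by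
    intro h hh
    induction h, hh using Nat.le_induction with
    | base => norm_num; linarith
    | succ h hh ih =>
      have h1 := hcon h hh ih
      have hq : (0 : ℝ) < 2 ^ h := by positivity
      have hq1 : (1 : ℝ) ≤ 2 ^ h := one_le_pow₀ (by norm_num)
      rw [pow_succ, le_div_iff₀ (by positivity)]
      rw [le_div_iff₀ hq] at h1
      nlinarith
  obtain ⟨h, h1, h2⟩ := two_large c hc0
  exact h2 (key h h1)

private theorem two_arith {c q e n w T M s I0 : ℝ} (hc : 0 < c) (hq : 0 < q) (hn : 1 ≤ n)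
    (hw0 : 0 ≤ w) (hwn : w ≤ n) (hT0 : 0 < T) (hTe : T ≤ e * (n + q ^ 3) ^ 2) (hM0 : 0 ≤ M)
    (hM : c * n ^ 2 - 1 ≤ M) (hMT : M ≤ T)
    (hI : e * w ^ 2 - 3 / 4 * q * w * (n / q ^ 3 + 1) ≤ I0) (hs : M * I0 ≤ s * T) :
    c * w ^ 2 - (2 * c * q ^ 3 * n + c * q ^ 6 + 1) - (3 / (4 * q ^ 2) * n ^ 2 + 3 / 4 * q * n) ≤ s := by
  have hX : 3 / 4 * q * w * (n / q ^ 3 + 1) ≤ 3 / (4 * q ^ 2) * n ^ 2 + 3 / 4 * q * n := by
    have e1 : 3 / (4 * q ^ 2) * n ^ 2 + 3 / 4 * q * n = 3 / 4 * q * n * (n / q ^ 3 + 1) := by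
      field_simp
    rw [e1]
    have h1 : 0 ≤ n / q ^ 3 + 1 := by positivity
    have h2 : 3 / 4 * q * w ≤ 3 / 4 * q * n := by nlinarith
    exact mul_le_mul_of_nonneg_right h2 h1
  set X : ℝ := 3 / (4 * q ^ 2) * n ^ 2 + 3 / 4 * q * n with hXd
  have hX0 : 0 ≤ X := by positivity
  have hr0 : 0 ≤ M / T := by positivity
  have hr1 : M / T ≤ 1 := (div_le_one hT0).2 hMT
  have h1 : M / T * I0 ≤ s := by
    rw [div_mul_eq_mul_div, div_le_iff₀ hT0]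
    exact hs
  have h2 : M / T * (e * w ^ 2 - X) ≤ M / T * I0 :=
    mul_le_mul_of_nonneg_left (by linarith) hr0
  have h3 : M / T * X ≤ X := by nlinarith
  have hP : 0 < (n + q ^ 3) ^ 2 := by positivity
  have h4 : M / (n + q ^ 3) ^ 2 ≤ M / T * e := by
    rw [div_mul_eq_mul_div, div_le_div_iff₀ hP hT0, mul_assoc]
    exact mul_le_mul_of_nonneg_left hTe hM0
  have hw2 : w ^ 2 ≤ (n + q ^ 3) ^ 2 := by
    have : 0 < q ^ 3 := by positivity
    exact pow_le_pow_left₀ hw0 (by linarith) 2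
  have h5 : c * w ^ 2 - (2 * c * q ^ 3 * n + c * q ^ 6 + 1) ≤ M / (n + q ^ 3) ^ 2 * w ^ 2 := by
    have h6 : (c * n ^ 2 - 1) / (n + q ^ 3) ^ 2 * w ^ 2 ≤ M / (n + q ^ 3) ^ 2 * w ^ 2 :=
      mul_le_mul_of_nonneg_right (div_le_div_of_nonneg_right hM hP.le) (sq_nonneg w)
    refine le_trans ?_ h6
    rw [div_mul_eq_mul_div, le_div_iff₀ hP]
    have h7 : 0 ≤ 2 * c * q ^ 3 * n + c * q ^ 6 + 1 := by positivity
    have e1 : c * (n + q ^ 3) ^ 2 = c * n ^ 2 - 1 + (2 * c * q ^ 3 * n + c * q ^ 6 + 1) := by ring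
    have h8 : (2 * c * q ^ 3 * n + c * q ^ 6 + 1) * w ^ 2 ≤
        (2 * c * q ^ 3 * n + c * q ^ 6 + 1) * (n + q ^ 3) ^ 2 := mul_le_mul_of_nonneg_left hw2 h7
    calc (c * w ^ 2 - (2 * c * q ^ 3 * n + c * q ^ 6 + 1)) * (n + q ^ 3) ^ 2
        = (c * (n + q ^ 3) ^ 2) * w ^ 2 -
          (2 * c * q ^ 3 * n + c * q ^ 6 + 1) * (n + q ^ 3) ^ 2 := by ring
      _ = (c * n ^ 2 - 1) * w ^ 2 + ((2 * c * q ^ 3 * n + c * q ^ 6 + 1) * w ^ 2 -
          (2 * c * q ^ 3 * n + c * q ^ 6 + 1) * (n + q ^ 3) ^ 2) := by rw [e1]; ring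
      _ ≤ (c * n ^ 2 - 1) * w ^ 2 := by linarith
  have h9 : M / (n + q ^ 3) ^ 2 * w ^ 2 ≤ M / T * e * w ^ 2 :=
    mul_le_mul_of_nonneg_right h4 (sq_nonneg w)
  have e2 : M / T * (e * w ^ 2 - X) = M / T * e * w ^ 2 - M / T * X := by ring
  rw [e2] at h2
  linarith

private theorem two_arith2 {c q n r : ℝ} (hc : 0 < c) (hq : 0 < q) (hn : 1 ≤ n) (hr : 0 ≤ r)
    (hrn : r * r = n) (hqc : 1 / q < 32 * c)
    (hK : 2 * c * q ^ 3 + c * q ^ 6 + 5 + 3 / 4 * q ≤ 256 * c ^ 2 * r) :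
    (2 * c * q ^ 3 * n + c * q ^ 6 + 1) + (3 / (4 * q ^ 2) * n ^ 2 + 3 / 4 * q * n) + 4 * n * r ≤
      1024 * c ^ 2 * n ^ 2 := by
  have hr1 : 1 ≤ r := by
    by_contra h
    push Not at h
    nlinarith
  have hnr : n ≤ n * r := by nlinarith
  have h1nr : 1 ≤ n * r := by nlinarith
  have h1 : 3 / (4 * q ^ 2) ≤ 768 * c ^ 2 := by
    have h2 : (1 / q) ^ 2 ≤ (32 * c) ^ 2 := pow_le_pow_left₀ (by positivity) hqc.le 2
    have e1 : 3 / (4 * q ^ 2) = 3 / 4 * (1 / q) ^ 2 := by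
      field_simp
    rw [e1]
    nlinarith
  have h3 : 3 / (4 * q ^ 2) * n ^ 2 ≤ 768 * c ^ 2 * n ^ 2 :=
    mul_le_mul_of_nonneg_right h1 (sq_nonneg n)
  have h4 : (2 * c * q ^ 3 + c * q ^ 6 + 5 + 3 / 4 * q) * (n * r) ≤ 256 * c ^ 2 * r * (n * r) :=
    mul_le_mul_of_nonneg_right hK (by positivity)
  have e2 : 256 * c ^ 2 * r * (n * r) = 256 * c ^ 2 * n ^ 2 := by
    calc 256 * c ^ 2 * r * (n * r) = 256 * c ^ 2 * n * (r * r) := by ring
      _ = 256 * c ^ 2 * n ^ 2 := by rw [hrn]; ring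
  rw [e2] at h4
  have h5 : 2 * c * q ^ 3 * n ≤ 2 * c * q ^ 3 * (n * r) :=
    mul_le_mul_of_nonneg_left hnr (by positivity)
  have h6 : c * q ^ 6 * 1 ≤ c * q ^ 6 * (n * r) := mul_le_mul_of_nonneg_left h1nr (by positivity)
  have h7 : 3 / 4 * q * n ≤ 3 / 4 * q * (n * r) := mul_le_mul_of_nonneg_left hnr (by positivity)
  linarith

theorem half_two :
    ∀ c : ℝ, 0 < c → c ≤ 1 / 1024 → ∃ N : ℕ, ∀ n : ℕ, N ≤ n → ∃ G : SimpleGraph (Fin n),
      G.CliqueFree 3 ∧ G.edgeSet.ncard = ⌊c * (n : ℝ) ^ 2⌋₊ ∧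
      ∀ W : Finset (Fin n), c * (W.card : ℝ) ^ 2 - 1024 * c ^ 2 * (n : ℝ) ^ 2 ≤ ins G W := by
  intro c hc0 hc1
  obtain ⟨h, h3, h2, h1⟩ := exists_h hc0 hc1
  set q : ℝ := (2 : ℝ) ^ h with hqd
  have hq8 : 8 ≤ q := by
    have : (2 : ℝ) ^ 3 ≤ 2 ^ h := pow_le_pow_right₀ (by norm_num) h3
    linarith
  have hq0 : 0 < q := by linarith
  set e : ℝ := (q - 1) / (4 * q ^ 2) with hed
  set K : ℝ := 2 * c * q ^ 3 + c * q ^ 6 + 5 + 3 / 4 * q with hKd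
  have hK0 : 0 ≤ K := by positivity
  refine ⟨⌈(K / (256 * c ^ 2)) ^ 2⌉₊ + ⌈21 * q / (4 * c)⌉₊ + 1, fun n hn => ?_⟩
  have hn1 : 1 ≤ n := by omega
  have hn1' : (1 : ℝ) ≤ n := by exact_mod_cast hn1
  have hnK : (K / (256 * c ^ 2)) ^ 2 ≤ n := by
    refine (Nat.le_ceil _).trans ?_
    exact_mod_cast (by omega : ⌈(K / (256 * c ^ 2)) ^ 2⌉₊ ≤ n)
  have hnq : 21 * q / (4 * c) ≤ n := by
    refine (Nat.le_ceil _).trans ?_
    exact_mod_cast (by omega : ⌈21 * q / (4 * c)⌉₊ ≤ n)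
  obtain ⟨G0, hG1, hG2, hG3⟩ := base h (by omega) n
  have hT : c * (n : ℝ) ^ 2 ≤ ins G0 Finset.univ := by
    refine le_trans ?_ (hG2 Finset.univ)
    rw [Finset.card_univ, Fintype.card_fin]
    have e1 : (q - 1) / (4 * q ^ 2) * (n : ℝ) ^ 2 - 3 / 4 * q * (n : ℝ) * ((n : ℝ) / q ^ 3 + 1) =
        (e - 3 / (4 * q ^ 2)) * (n : ℝ) ^ 2 - 3 / 4 * q * n := by
      rw [hed]
      field_simp
      ring
    change c * (n : ℝ) ^ 2 ≤ (q - 1) / (4 * q ^ 2) * (n : ℝ) ^ 2 -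
      3 / 4 * q * (n : ℝ) * ((n : ℝ) / q ^ 3 + 1)
    rw [e1]
    have h4 : 8 / 7 * c ≤ e - 3 / (4 * q ^ 2) := by
      have h5 : 3 / (4 * q ^ 2) ≤ 3 / 7 * e := by
        rw [hed, mul_div_assoc', div_le_div_iff_of_pos_right (by positivity)]
        linarith
      have h6 : 2 * c ≤ e := h2
      linarith
    have h5 : 8 / 7 * c * (n : ℝ) ^ 2 ≤ (e - 3 / (4 * q ^ 2)) * (n : ℝ) ^ 2 :=
      mul_le_mul_of_nonneg_right h4 (sq_nonneg _)
    have h6 : 3 / 4 * q * n ≤ 1 / 7 * c * (n : ℝ) ^ 2 := by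
      rw [div_le_iff₀ (by positivity)] at hnq
      have h7 : 3 / 4 * q ≤ 1 / 7 * c * n := by linarith
      calc 3 / 4 * q * n ≤ 1 / 7 * c * n * n :=
            mul_le_mul_of_nonneg_right h7 (by linarith)
        _ = 1 / 7 * c * (n : ℝ) ^ 2 := by ring
    linarith
  have hcn : 0 < c * (n : ℝ) ^ 2 := by positivity
  have hM1 : ((⌊c * (n : ℝ) ^ 2⌋₊ : ℕ) : ℝ) ≤ c * (n : ℝ) ^ 2 := Nat.floor_le hcn.le
  have hM2 : c * (n : ℝ) ^ 2 - 1 ≤ ((⌊c * (n : ℝ) ^ 2⌋₊ : ℕ) : ℝ) := (Nat.sub_one_lt_floor _).le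
  obtain ⟨G, hGle, hGM, hGW⟩ := sparsify hn1 G0 ⌊c * (n : ℝ) ^ 2⌋₊ (hM1.trans hT)
  refine ⟨G, ?_, hGM, fun W => ?_⟩
  · exact hG1.anti hGle
  · have hwn : (W.card : ℝ) ≤ n := by
      have := Finset.card_le_univ W
      rw [Fintype.card_fin] at this
      exact_mod_cast this
    have h4 := two_arith hc0 hq0 hn1' (Nat.cast_nonneg W.card) hwn (hcn.trans_le hT) hG3
      (Nat.cast_nonneg _) hM2 (hM1.trans hT) (hG2 W) (hGW W)
    have h5 := two_arith2 (r := Real.sqrt n) hc0 hq0 hn1' (Real.sqrt_nonneg _)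
      (Real.mul_self_sqrt (by linarith)) h1 (by
        have h6 : K / (256 * c ^ 2) ≤ Real.sqrt n := by
          rw [← Real.sqrt_sq (by positivity : 0 ≤ K / (256 * c ^ 2))]
          exact Real.sqrt_le_sqrt hnK
        rw [div_le_iff₀ (by positivity)] at h6
        linarith)
    linarith

end Pool.Agent.H10.EO
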